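import Pool.Agent.H15.Defect.LowerPow

/-!
# The defect as a natural number; Strassen's algorithm
-/

open TensorProduct Module Matrix

namespace Pool.Agent.H15.Defect

open Pool.Agent.H12.Defect

universe u

section defect

variable {k : Type u} [Field k] {A : Type u} [CommRing A] [Algebra k A]

theorem finrank_add_le_of_mem {δ : ℕ} (h : δ ∈ defects k A) : Dle k A (finrank k A + δ) := by
  obtain ⟨B, i1, i2, h1, h2, h3⟩ := h
  exact ⟨B, i1, i2, h1, h2, h3.le⟩

theorem Dle.exists_mem {N : ℕ} (h : Dle k A N) : ∃ δ ∈ defects k A, finrank k A + δ ≤ N := by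
  obtain ⟨B, i1, i2, h1, ⟨g, hg⟩, h3⟩ := h
  have := IsSmoothable.finite h1
  have hle : finrank k A ≤ finrank k B := LinearMap.finrank_le_finrank_of_surjective
    (f := g.toLinearMap) hg
  exact ⟨finrank k B - finrank k A, ⟨B, i1, i2, h1, ⟨g, hg⟩, by omega⟩, by omega⟩

theorem defect_eq {N : ℕ} (h : Dle k A N) :
    defect k A ≠ ⊤ ∧ (defect k A).toNat ∈ defects k A ∧
      finrank k A + (defect k A).toNat ≤ N := by
  obtain ⟨δ, hδ, hle⟩ := h.exists_mem
  have hne : (defects k A).Nonempty := ⟨δ, hδ⟩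
  have h1 : defect k A = ((sInf (defects k A) : ℕ) : ℕ∞) := by
    apply le_antisymm
    · exact iInf₂_le _ (Nat.sInf_mem hne)
    · refine le_iInf₂ fun δ hδ => ?_
      exact_mod_cast Nat.sInf_le hδ
  rw [h1]
  refine ⟨ENat.coe_ne_top _, ?_, ?_⟩
  · rw [ENat.toNat_coe]; exact Nat.sInf_mem hne
  · rw [ENat.toNat_coe]
    have := Nat.sInf_le hδ
    omega

theorem dle_defect {N : ℕ} (h : Dle k A N) : Dle k A (finrank k A + (defect k A).toNat) :=
  finrank_add_le_of_mem (defect_eq h).2.1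

end defect

section strassen

variable {k : Type u} [Field k]

/-- linear form with given coefficients -/
noncomputable def lform (a : Matrix (Fin 2) (Fin 2) k) : Matrix (Fin 2) (Fin 2) k →ₗ[k] k :=
  ∑ i, ∑ j, a i j • Matrix.entryLinearMap k k i j

theorem lform_apply (a X : Matrix (Fin 2) (Fin 2) k) :
    lform a X = a 0 0 * X 0 0 + a 0 1 * X 0 1 + (a 1 0 * X 1 0 + a 1 1 * X 1 1) := by
  simp [lform]

/-- Strassen's algorithm. -/
theorem mm_strassen : MM k (Fin 2) 7 := by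
  refine ⟨fun t => lform ((![!![1, 0; 0, 1], !![0, 0; 1, 1], !![1, 0; 0, 0], !![0, 0; 0, 1],
    !![1, 1; 0, 0], !![-1, 0; 1, 0], !![0, 1; 0, -1]] : Fin 7 → Matrix (Fin 2) (Fin 2) k) t),
    fun t => lform ((![!![1, 0; 0, 1], !![1, 0; 0, 0], !![0, 1; 0, -1], !![-1, 0; 1, 0],
      !![0, 0; 0, 1], !![1, 1; 0, 0], !![0, 0; 1, 1]] : Fin 7 → Matrix (Fin 2) (Fin 2) k) t),
    (![!![1, 0; 0, 1], !![0, 0; 1, -1], !![0, 1; 0, 1], !![1, 0; 1, 0],
      !![-1, 1; 0, 0], !![0, 0; 0, 1], !![1, 0; 0, 0]] : Fin 7 → Matrix (Fin 2) (Fin 2) k),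
    fun X Y => ?_⟩
  simp only [lform_apply]
  ext i j
  fin_cases i <;> fin_cases j <;>
  simp [Fin.sum_univ_succ, Matrix.mul_apply, Matrix.sum_apply] <;> ring

theorem omega_le_log : omega k ≤ Real.log 7 / Real.log 2 := by
  have h := (mm_strassen (k := k)).rpow_omega_le (by norm_num)
  push_cast at h
  rw [le_div_iff₀ (Real.log_pos (by norm_num)), ← Real.log_rpow (by norm_num)]
  exact Real.log_le_log (by positivity) h

end strassen

end Pool.Agent.H15.Defect
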