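import Pool.Agent.H15.Defect.Closure

/-!
# Finite schemes contained in smoothable schemes of bounded degree
-/

open TensorProduct Module PowerSeries

namespace Pool.Agent.H15.Defect

open Pool.Agent.H12.Defect

universe u

/-- `Spec A` is a closed subscheme of some smoothable finite scheme of degree at most `N`. -/
def Dle (k : Type u) [Field k] (A : Type u) [CommRing A] [Algebra k A] (N : ℕ) : Prop :=
  ∃ (B : Type u) (_ : CommRing B) (_ : Algebra k B), IsSmoothable k B ∧
    (∃ g : B →ₐ[k] A, Function.Surjective g) ∧ finrank k B ≤ N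

variable {k : Type u} [Field k] {A A' : Type u} [CommRing A] [Algebra k A] [CommRing A']
  [Algebra k A'] {N N' : ℕ}

theorem Dle.mono (h : Dle k A N) (hN : N ≤ N') : Dle k A N' := by
  obtain ⟨B, i1, i2, h1, h2, h3⟩ := h
  exact ⟨B, i1, i2, h1, h2, h3.trans hN⟩

theorem Dle.of_surjective (h : Dle k A N) (f : A →ₐ[k] A') (hf : Function.Surjective f) :
    Dle k A' N := by
  obtain ⟨B, i1, i2, h1, ⟨g, hg⟩, h3⟩ := h
  exact ⟨B, i1, i2, h1, ⟨f.comp g, hf.comp hg⟩, h3⟩

theorem Dle.of_equiv (h : Dle k A N) (e : A ≃ₐ[k] A') : Dle k A' N :=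
  h.of_surjective e.toAlgHom e.surjective

theorem IsSmoothable.dle (h : IsSmoothable k A) : Dle k A (finrank k A) :=
  ⟨A, inferInstance, inferInstance, h, ⟨AlgHom.id k A, Function.surjective_id⟩, le_rfl⟩

theorem Dle.prod (h : Dle k A N) (h' : Dle k A' N') : Dle k (A × A') (N + N') := by
  obtain ⟨B, i1, i2, h1, ⟨g, hg⟩, h3⟩ := h
  obtain ⟨B', j1, j2, h1', ⟨g', hg'⟩, h3'⟩ := h'
  refine ⟨B × B', inferInstance, inferInstance, IsSmoothable.prod h1 h1', ⟨g.prodMap g', ?_⟩, ?_⟩
  · rintro ⟨a, a'⟩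
    obtain ⟨b, rfl⟩ := hg a
    obtain ⟨b', rfl⟩ := hg' a'
    exact ⟨(b, b'), rfl⟩
  · have := IsSmoothable.finite h1
    have := IsSmoothable.finite h1'
    rw [Module.finrank_prod]
    exact Nat.add_le_add h3 h3'

theorem Dle.tensor (h : Dle k A N) (h' : Dle k A' N') : Dle k (A ⊗[k] A') (N * N') := by
  obtain ⟨B, i1, i2, h1, ⟨g, hg⟩, h3⟩ := h
  obtain ⟨B', j1, j2, h1', ⟨g', hg'⟩, h3'⟩ := h'
  refine ⟨B ⊗[k] B', inferInstance, inferInstance, IsSmoothable.tensor h1 h1',
    ⟨Algebra.TensorProduct.map g g', TensorProduct.map_surjective hg hg'⟩, ?_⟩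
  rw [Module.finrank_tensorProduct]
  exact Nat.mul_le_mul h3 h3'

theorem dle_self (k : Type u) [Field k] : Dle k k 1 := by
  have := IsSmoothable.dle (isSmoothable_self k)
  rwa [Module.finrank_self] at this

/-- A subalgebra of an algebra. -/
theorem Dle.subalgebra (h : Dle k A N) (S : Subalgebra k A) : Dle k S N := by
  obtain ⟨B, i1, i2, h1, ⟨g, hg⟩, h3⟩ := h
  obtain ⟨B', j1, j2, h1', ⟨g', hg'⟩, h3'⟩ := exists_smoothable_of_subalgebra h1 (S.comap g)
  let q : (S.comap g) →ₐ[k] S :=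
    (g.comp (S.comap g).val).codRestrict S (fun x => x.2)
  have hq : Function.Surjective q := by
    rintro ⟨s, hs⟩
    obtain ⟨b, rfl⟩ := hg s
    exact ⟨⟨b, hs⟩, rfl⟩
  exact ⟨B', j1, j2, h1', ⟨q.comp g', hq.comp hg'⟩, h3'.trans_le h3⟩

theorem Dle.of_injective (h : Dle k A N) (f : A' →ₐ[k] A) (hf : Function.Injective f) :
    Dle k A' N :=
  (h.subalgebra f.range).of_equiv (AlgEquiv.ofInjective f hf).symm

/-- `A'` is a quotient of a subalgebra of `A`. -/
theorem Dle.subquotient (h : Dle k A N) (S : Subalgebra k A) (f : S →ₐ[k] A')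
    (hf : Function.Surjective f) : Dle k A' N := (h.subalgebra S).of_surjective f hf

theorem isSmoothable_of_subsingleton [Subsingleton A] : IsSmoothable k A := by
  rw [isSmoothable_iff]
  let _ : Algebra (PowerSeries k) PUnit.{u + 1} :=
    { smul := fun _ _ => PUnit.unit
      algebraMap := ⟨⟨⟨fun _ => PUnit.unit, rfl⟩, fun _ _ => rfl⟩, rfl, fun _ _ => rfl⟩
      commutes' := fun _ _ => rfl
      smul_def' := fun _ _ => rfl }
  let π : PUnit.{u + 1} →+* A :=
    ⟨⟨⟨fun _ => 0, Subsingleton.elim _ _⟩, fun _ _ => Subsingleton.elim _ _⟩,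
      rfl, fun _ _ => Subsingleton.elim _ _⟩
  refine ⟨PUnit.{u + 1}, inferInstance, inferInstance, π, ?_, ?_, ?_, ?_, ?_, ?_⟩
  · exact ⟨⟨∅, Subsingleton.elim _ _⟩⟩
  · exact Module.Flat.of_free
  · exact ⟨fun x _ => Subsingleton.elim _ _⟩
  · intro a; exact ⟨PUnit.unit, Subsingleton.elim _ _⟩
  · ext a
    constructor
    · intro _
      have : a = 0 := rfl
      rw [this]; exact Ideal.zero_mem _
    · intro _
      exact Subsingleton.elim _ _
  · intro r; exact Subsingleton.elim _ _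

theorem dle_subsingleton [Subsingleton A] : Dle k A 0 := by
  have := IsSmoothable.dle (isSmoothable_of_subsingleton (k := k) (A := A))
  rwa [Module.finrank_zero_of_subsingleton] at this

theorem Dle.pi (h : Dle k A N) : ∀ r : ℕ, Dle k (Fin r → A) (r * N)
  | 0 => by rw [zero_mul]; exact dle_subsingleton
  | r + 1 => by
    have h1 := h.prod (Dle.pi h r)
    let e : (A × (Fin r → A)) ≃ₐ[k] (Fin (r + 1) → A) :=
      AlgEquiv.ofRingEquiv (f :=
        { (Fin.consEquiv (fun _ : Fin (r + 1) => A)) with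
          map_mul' := by
            rintro ⟨a, f⟩ ⟨b, g⟩
            funext i
            refine Fin.cases ?_ (fun j => ?_) i <;> rfl
          map_add' := by
            rintro ⟨a, f⟩ ⟨b, g⟩
            funext i
            refine Fin.cases ?_ (fun j => ?_) i <;> rfl }) (by
        intro c
        funext i
        refine Fin.cases ?_ (fun j => ?_) i <;> rfl)
    refine (h1.of_equiv e).mono ?_
    rw [add_mul, one_mul, add_comm]

end Pool.Agent.H15.Defect
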