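import Mathlib

/-!
# Bilinear complexity of matrix multiplication
-/

open Module Matrix

namespace Pool.Agent.H15.Defect

universe u

/-- Multiplication of matrices with rows and columns indexed by `ι` can be done with `r` bilinear
multiplications: `X Y = ∑_{t < r} α_t(X) β_t(Y) w_t` with linear forms `α_t, β_t` and matrices
`w_t`; that is, the rank of the matrix multiplication tensor is at most `r`. -/
def MM (k : Type u) [Field k] (ι : Type) [Fintype ι] (r : ℕ) : Prop :=
  ∃ (α β : Fin r → (Matrix ι ι k →ₗ[k] k)) (w : Fin r → Matrix ι ι k),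
    ∀ X Y : Matrix ι ι k, X * Y = ∑ t, (α t X * β t Y) • w t

variable {k : Type u} [Field k] {ι κ : Type} [Fintype ι] [Fintype κ]

theorem MM.of_fintype {T : Type*} [Fintype T] (α β : T → (Matrix ι ι k →ₗ[k] k))
    (w : T → Matrix ι ι k) (h : ∀ X Y : Matrix ι ι k, X * Y = ∑ t, (α t X * β t Y) • w t) :
    MM k ι (Fintype.card T) := by
  let e := Fintype.equivFin T
  refine ⟨fun t => α (e.symm t), fun t => β (e.symm t), fun t => w (e.symm t), fun X Y => ?_⟩
  rw [h]
  exact (e.symm.sum_comp (fun t => (α t X * β t Y) • w t)).symm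

theorem MM.mono {r s : ℕ} (h : MM k ι r) (hrs : r ≤ s) : MM k ι s := by
  obtain ⟨α, β, w, h⟩ := h
  have := MM.of_fintype (T := Fin r ⊕ Fin (s - r)) (Sum.elim α 0) (Sum.elim β 0) (Sum.elim w 0)
    (fun X Y => by
      rw [h, Fintype.sum_sum_type]
      simp)
  rwa [Fintype.card_sum, Fintype.card_fin, Fintype.card_fin, Nat.add_sub_cancel' hrs] at this

theorem MM.of_injective {r : ℕ} (h : MM k ι r) (f : κ → ι) (hf : Function.Injective f) :
    MM k κ r := by
  classical
  obtain ⟨α, β, w, h⟩ := h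
  let P : Matrix ι κ k := fun i a => if i = f a then 1 else 0
  have hP : Pᵀ * P = 1 := by
    ext a b
    simp only [Matrix.mul_apply, Matrix.transpose_apply, P, Matrix.one_apply, mul_ite, mul_one,
      mul_zero]
    rw [Finset.sum_eq_single (f b)]
    · by_cases hab : a = b
      · simp [hab]
      · have : f b ≠ f a := fun h => hab (hf h).symm
        simp [hab, this]
    · intro i _ hi
      simp [hi]
    · intro h; exact absurd (Finset.mem_univ _) h
  let E : Matrix κ κ k →ₗ[k] Matrix ι ι k :=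
    { toFun := fun X => P * X * Pᵀ
      map_add' := by intro X Y; rw [Matrix.mul_add, Matrix.add_mul]
      map_smul' := by intro c X; simp }
  have key : ∀ X Y : Matrix κ κ k, Pᵀ * (E X * E Y) * P = X * Y := by
    intro X Y
    show Pᵀ * ((P * X * Pᵀ) * (P * Y * Pᵀ)) * P = X * Y
    calc Pᵀ * ((P * X * Pᵀ) * (P * Y * Pᵀ)) * P = (Pᵀ * P) * X * (Pᵀ * P) * Y * (Pᵀ * P) := by
          simp only [Matrix.mul_assoc]
      _ = X * Y := by rw [hP]; simp
  refine ⟨fun t => α t ∘ₗ E, fun t => β t ∘ₗ E, fun t => Pᵀ * w t * P, fun X Y => ?_⟩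
  rw [← key, h, Matrix.mul_sum, Matrix.sum_mul]
  refine Finset.sum_congr rfl fun t _ => ?_
  simp

theorem MM.prod {r s : ℕ} (h : MM k ι r) (h' : MM k κ s) : MM k (ι × κ) (r * s) := by
  obtain ⟨α, β, w, h⟩ := h
  obtain ⟨α', β', w', h'⟩ := h'
  -- blocks
  let blk (a b : κ) : Matrix (ι × κ) (ι × κ) k →ₗ[k] Matrix ι ι k :=
    { toFun := fun X i j => X (i, a) (j, b)
      map_add' := fun _ _ => rfl
      map_smul' := fun _ _ => rfl }
  let L (α : Matrix ι ι k →ₗ[k] k) : Matrix (ι × κ) (ι × κ) k →ₗ[k] Matrix κ κ k :=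
    { toFun := fun X a b => α (blk a b X)
      map_add' := fun X Y => by ext a b; simp
      map_smul' := fun c X => by ext a b; simp }
  have hkey : ∀ (X Y : Matrix (ι × κ) (ι × κ) k) (i j : ι) (a b : κ),
      (X * Y) (i, a) (j, b) = ∑ t, w t i j * (L (α t) X * L (β t) Y) a b := by
    intro X Y i j a b
    have h1 : (X * Y) (i, a) (j, b) = ∑ c, (blk a c X * blk c b Y) i j := by
      simp only [Matrix.mul_apply, Fintype.sum_prod_type]
      rw [Finset.sum_comm]
      rfl
    rw [h1]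
    simp only [h, Matrix.sum_apply, Matrix.smul_apply, smul_eq_mul]
    rw [Finset.sum_comm]
    refine Finset.sum_congr rfl fun t _ => ?_
    rw [Matrix.mul_apply, Finset.mul_sum]
    refine Finset.sum_congr rfl fun c _ => ?_
    show α t (blk a c X) * β t (blk c b Y) * w t i j = w t i j * (α t (blk a c X) * β t (blk c b Y))
    ring
  have := MM.of_fintype (T := Fin r × Fin s) (fun t => α' t.2 ∘ₗ L (α t.1))
    (fun t => β' t.2 ∘ₗ L (β t.1)) (fun t p q => w t.1 p.1 q.1 * w' t.2 p.2 q.2) (fun X Y => by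
      ext ⟨i, a⟩ ⟨j, b⟩
      rw [hkey]
      simp only [h', Matrix.sum_apply, Matrix.smul_apply, smul_eq_mul, Fintype.sum_prod_type,
        LinearMap.comp_apply]
      refine Finset.sum_congr rfl fun t _ => ?_
      rw [Finset.mul_sum]
      refine Finset.sum_congr rfl fun u _ => ?_
      ring)
  rwa [Fintype.card_prod, Fintype.card_fin, Fintype.card_fin] at this

theorem MM.of_equiv {r : ℕ} (h : MM k ι r) (e : κ ≃ ι) : MM k κ r := h.of_injective e e.injective

theorem MM.pow {q r : ℕ} (h : MM k (Fin q) r) : ∀ j : ℕ, MM k (Fin (q ^ j)) (r ^ j)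
  | 0 => by
    rw [pow_zero, pow_zero]
    have := MM.of_fintype (k := k) (ι := Fin 1) (T := Unit) (fun _ => Matrix.entryLinearMap k k 0 0)
      (fun _ => Matrix.entryLinearMap k k 0 0) (fun _ => 1) (fun X Y => by
        ext i j
        fin_cases i
        fin_cases j
        simp [Matrix.mul_apply])
    simpa using this
  | j + 1 => by
    have := h.prod (MM.pow h j)
    rw [pow_succ', pow_succ']
    exact this.of_equiv finProdFinEquiv.symm

/-- the standard algorithm -/
theorem mm_cube (n : ℕ) : MM k (Fin n) (n ^ 3) := by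
  have := MM.of_fintype (k := k) (ι := Fin n) (T := Fin n × Fin n × Fin n)
    (fun t => Matrix.entryLinearMap k k t.1 t.2.1) (fun t => Matrix.entryLinearMap k k t.2.1 t.2.2)
    (fun t => Matrix.single t.1 t.2.2 (1 : k)) (fun X Y => by
      ext i j
      simp only [Matrix.sum_apply, Fintype.sum_prod_type, Matrix.smul_apply,
        Matrix.single_apply, smul_eq_mul, Matrix.entryLinearMap_apply, mul_ite, mul_one, mul_zero]
      rw [Matrix.mul_apply]
      symm
      rw [Finset.sum_eq_single_of_mem i (Finset.mem_univ _)]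
      · refine Finset.sum_congr rfl fun l _ => ?_
        rw [Finset.sum_eq_single_of_mem j (Finset.mem_univ _)]
        · simp
        · intro b _ hb
          simp [hb]
      · intro b _ hb
        refine Finset.sum_eq_zero fun _ _ => Finset.sum_eq_zero fun _ _ => ?_
        simp [hb])
  simpa [pow_succ, mul_assoc] using this

/-- The rank is at least the dimension of the space of matrices. -/
theorem MM.sq_le {n r : ℕ} (h : MM k (Fin n) r) : n ^ 2 ≤ r := by
  obtain ⟨α, β, w, h⟩ := h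
  have h1 : Submodule.span k (Set.range w) = ⊤ := by
    rw [eq_top_iff]
    intro X _
    have h2 := h X 1
    rw [mul_one] at h2
    rw [h2]
    exact Submodule.sum_mem _ fun t _ => Submodule.smul_mem _ _ (Submodule.subset_span ⟨t, rfl⟩)
  have h2 := finrank_range_le_card (R := k) w
  rw [Set.finrank, h1, finrank_top, Module.finrank_matrix] at h2
  simpa [pow_two] using h2

/-- **The exponent of matrix multiplication** over `k`: the infimum of all real `τ` such that, for
some `C` and all `n ≥ 1`, the tensor of `n × n` matrix multiplication has rank at most `C n^τ`. -/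
noncomputable def omega (k : Type u) [Field k] : ℝ :=
  sInf {τ : ℝ | ∃ C : ℝ, ∀ n : ℕ, 1 ≤ n → ∃ r : ℕ, MM k (Fin n) r ∧ (r : ℝ) ≤ C * (n : ℝ) ^ τ}

theorem two_le_of_mem {τ : ℝ} (h : ∃ C : ℝ, ∀ n : ℕ, 1 ≤ n → ∃ r : ℕ, MM k (Fin n) r ∧
    (r : ℝ) ≤ C * (n : ℝ) ^ τ) : 2 ≤ τ := by
  obtain ⟨C, hC⟩ := h
  by_contra hlt
  rw [not_le] at hlt
  have h1 : Filter.Tendsto (fun n : ℕ => ((n : ℝ)) ^ (2 - τ)) Filter.atTop Filter.atTop :=
    (tendsto_rpow_atTop (by linarith)).comp tendsto_natCast_atTop_atTop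
  obtain ⟨n, hn, hn1⟩ := ((h1.eventually_gt_atTop C).and (Filter.eventually_ge_atTop 1)).exists
  obtain ⟨r, hr, hr2⟩ := hC n hn1
  have h2 : ((n : ℝ)) ^ 2 ≤ r := by exact_mod_cast hr.sq_le
  have hpos : (0 : ℝ) < n := by exact_mod_cast hn1
  have h3 : ((n : ℝ)) ^ (2 : ℝ) = (n : ℝ) ^ (2 - τ) * (n : ℝ) ^ τ := by
    rw [← Real.rpow_add hpos]; congr 1; ring
  have h4 : C * (n : ℝ) ^ τ < (n : ℝ) ^ (2 - τ) * (n : ℝ) ^ τ :=
    mul_lt_mul_of_pos_right hn (Real.rpow_pos_of_pos hpos _)
  rw [← h3, Real.rpow_two] at h4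
  linarith

theorem bddBelow_omega : BddBelow {τ : ℝ | ∃ C : ℝ, ∀ n : ℕ, 1 ≤ n → ∃ r : ℕ, MM k (Fin n) r ∧
    (r : ℝ) ≤ C * (n : ℝ) ^ τ} := ⟨2, fun _ h => two_le_of_mem h⟩

theorem nonempty_omega : {τ : ℝ | ∃ C : ℝ, ∀ n : ℕ, 1 ≤ n → ∃ r : ℕ, MM k (Fin n) r ∧
    (r : ℝ) ≤ C * (n : ℝ) ^ τ}.Nonempty :=
  ⟨3, 1, fun n _ => ⟨n ^ 3, mm_cube n, by
    rw [one_mul]
    norm_cast⟩⟩

theorem two_le_omega : 2 ≤ omega k := le_csInf nonempty_omega fun _ h => two_le_of_mem h

theorem exists_of_lt_omega {ε : ℝ} (hε : 0 < ε) : ∃ C : ℝ, ∀ n : ℕ, 1 ≤ n → ∃ r : ℕ,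
    MM k (Fin n) r ∧ (r : ℝ) ≤ C * (n : ℝ) ^ (omega k + ε) := by
  obtain ⟨τ, ⟨C, hC⟩, hτ⟩ := exists_lt_of_csInf_lt (nonempty_omega (k := k))
    (show omega k < omega k + ε by linarith)
  have hC0 : 0 ≤ C := by
    obtain ⟨r, _, hr⟩ := hC 1 le_rfl
    have h0 : (0 : ℝ) ≤ r := Nat.cast_nonneg r
    simp only [Nat.cast_one, Real.one_rpow, mul_one] at hr
    linarith
  refine ⟨C, fun n hn => ?_⟩
  obtain ⟨r, hr, hr2⟩ := hC n hn
  refine ⟨r, hr, hr2.trans ?_⟩
  exact mul_le_mul_of_nonneg_left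
    (Real.rpow_le_rpow_of_exponent_le (by exact_mod_cast hn) hτ.le) hC0

/-- **The rank of matrix multiplication is at least `q^ω`.** -/
theorem MM.rpow_omega_le {q r : ℕ} (hq : 1 ≤ q) (h : MM k (Fin q) r) :
    (q : ℝ) ^ omega k ≤ r := by
  rcases Nat.lt_or_ge q 2 with hq2 | hq2
  · obtain rfl : q = 1 := by omega
    have := h.sq_le
    simp only [Nat.cast_one, Real.one_rpow]
    exact_mod_cast (by simpa using this)
  have hqr : (1 : ℝ) < q := by exact_mod_cast hq2
  have hr1 : 1 < r := by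
    have := h.sq_le
    nlinarith
  have hr1' : (1 : ℝ) < r := by exact_mod_cast hr1
  set τ : ℝ := Real.log r / Real.log q with hτ
  have hlq : 0 < Real.log q := Real.log_pos hqr
  have hτpos : 0 ≤ τ := div_nonneg (Real.log_pos hr1').le hlq.le
  have hqτ : (q : ℝ) ^ τ = r := by
    rw [hτ, Real.rpow_def_of_pos (by linarith), mul_div_cancel₀ _ hlq.ne', Real.exp_log (by linarith)]
  have hmem : omega k ≤ τ := by
    apply csInf_le bddBelow_omega
    refine ⟨r, fun n hn => ?_⟩
    have hlog := Nat.lt_pow_succ_log_self (b := q) (by omega) n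
    refine ⟨r ^ (Nat.log q n + 1), ?_, ?_⟩
    · exact (h.pow (Nat.log q n + 1)).of_injective (Fin.castLE hlog.le)
        (Fin.castLE_injective hlog.le)
    · have h1 : ((q : ℝ) ^ Nat.log q n) ≤ n := by
        exact_mod_cast Nat.pow_log_le_self q (by omega : n ≠ 0)
      push_cast
      rw [pow_succ', ← hqτ]
      apply mul_le_mul_of_nonneg_left _ (by positivity)
      rw [← Real.rpow_natCast, ← Real.rpow_mul (by positivity), mul_comm τ,
        Real.rpow_mul (by positivity), Real.rpow_natCast]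
      exact Real.rpow_le_rpow (by positivity) h1 hτpos
  calc (q : ℝ) ^ omega k ≤ (q : ℝ) ^ τ := Real.rpow_le_rpow_of_exponent_le hqr.le hmem
    _ = r := hqτ

end Pool.Agent.H15.Defect
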