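import Pool.Agent.H15.Defect.J3
import Pool.Agent.H15.Defect.MM

/-!
# The algebra `k ⊕ M_m ⊕ M_m` with product `X Y + Y X`
-/

open TensorProduct Module Matrix

namespace Pool.Agent.H15.Defect

open Pool.Agent.H12.Defect

universe u

section squares

variable {k : Type u} [Field k] {V W : Type u} [AddCommGroup V] [Module k V]
  [AddCommGroup W] [Module k W]

theorem dle_of_squares' {β : SymBil k V W} {T : Type} [Fintype T] [Nonempty T]
    (ℓ : T → (V →ₗ[k] k)) (w : T → W)
    (hβ : ∀ x y, β.bil x y = ∑ t, (ℓ t x * ℓ t y) • w t)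
    (hsep : ∀ x, (∀ t, ℓ t x = 0) → x = 0)
    (hspan : ∀ z : W, ∃ c : T → k, ∑ t, c t • w t = z) :
    Dle k (QA β) (Fintype.card T * 3) := by
  let e := Fintype.equivFin T
  apply dle_of_squares (β := β) Fintype.card_pos (fun t => ℓ (e.symm t)) (fun t => w (e.symm t))
  · intro x y
    rw [hβ]
    exact (e.symm.sum_comp (fun t => (ℓ t x * ℓ t y) • w t)).symm
  · intro x hx
    apply hsep
    intro t
    have := hx (e t)
    rwa [e.symm_apply_apply] at this
  · intro z
    obtain ⟨c, hc⟩ := hspan z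
    refine ⟨fun t => c (e.symm t), ?_⟩
    rw [← hc]
    exact e.symm.sum_comp (fun t => c t • w t)

end squares

variable (k : Type u) [Field k]

/-- The Jordan product `(X, Y) ↦ X Y + Y X` on `m × m` matrices. -/
noncomputable def jordan (m : ℕ) :
    SymBil k (Matrix (Fin m) (Fin m) k) (Matrix (Fin m) (Fin m) k) where
  bil := LinearMap.mul k (Matrix (Fin m) (Fin m) k) + (LinearMap.mul k (Matrix (Fin m) (Fin m) k)).flip
  symm := by
    intro x y
    simp [add_comm]

theorem jordan_apply (m : ℕ) (X Y : Matrix (Fin m) (Fin m) k) :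
    (jordan k m).bil X Y = X * Y + Y * X := rfl

/-- The local algebra `k ⊕ M_m ⊕ M_m` with product
`(a, X, Z) (a', X', Z') = (a a', a X' + a' X, a Z' + a' Z + X X' + X' X)`. -/
abbrev MatAlg (m : ℕ) : Type u := QA (jordan k m)

theorem finrank_matAlg (m : ℕ) : finrank k (MatAlg k m) = 2 * m ^ 2 + 1 := by
  rw [QA.finrank_eq, Module.finrank_matrix]
  simp only [Fintype.card_fin, Module.finrank_self, mul_one]
  ring

variable {k}

theorem dle_matAlg {m r : ℕ} (hm : 1 ≤ m) (h : MM k (Fin m) r) :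
    Dle k (MatAlg k m) (12 * r) := by
  have hr := h.sq_le
  obtain ⟨α, β, w, h⟩ := h
  have : Nonempty (Fin m) := ⟨⟨0, hm⟩⟩
  let ℓ : (Fin r × Fin 3) ⊕ (Fin m × Fin m) → (Matrix (Fin m) (Fin m) k →ₗ[k] k) :=
    Sum.elim (fun p => (![α p.1 + β p.1, α p.1, β p.1] : Fin 3 → _) p.2) (fun _ => 0)
  let v : (Fin r × Fin 3) ⊕ (Fin m × Fin m) → Matrix (Fin m) (Fin m) k :=
    Sum.elim (fun p => (![w p.1, - w p.1, - w p.1] : Fin 3 → _) p.2)
      (fun p => Matrix.single p.1 p.2 1)
  have h1 := dle_of_squares' (β := jordan k m) ℓ v ?_ ?_ ?_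
  · refine h1.mono ?_
    simp only [Fintype.card_sum, Fintype.card_prod, Fintype.card_fin]
    nlinarith
  · intro X Y
    rw [jordan_apply, h, h, Fintype.sum_sum_type, Fintype.sum_prod_type, ← Finset.sum_add_distrib]
    simp only [Sum.elim_inl, Sum.elim_inr, Fin.sum_univ_three, ℓ, v, Matrix.cons_val_zero,
      Matrix.cons_val_one, Matrix.cons_val, LinearMap.add_apply, LinearMap.zero_apply, mul_zero,
      zero_smul, Finset.sum_const_zero, add_zero]
    refine Finset.sum_congr rfl fun t _ => ?_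
    rw [smul_neg, smul_neg, ← sub_eq_add_neg, ← sub_eq_add_neg, ← sub_smul, ← sub_smul, ← add_smul]
    congr 1
    ring
  · intro X hX
    have h2 : ∀ t, α t X = 0 := fun t => hX (Sum.inl (t, 1))
    have h3 := h X 1
    rw [mul_one] at h3
    rw [h3]
    simp [h2]
  · intro Z
    refine ⟨Sum.elim (fun _ => 0) (fun p => Z p.1 p.2), ?_⟩
    rw [Fintype.sum_sum_type]
    simp only [Sum.elim_inl, Sum.elim_inr, zero_smul, Finset.sum_const_zero, zero_add, v]
    ext i j
    rw [Matrix.sum_apply, Fintype.sum_prod_type]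
    simp only [Matrix.smul_apply, Matrix.single_apply, smul_eq_mul, mul_ite, mul_one, mul_zero]
    rw [Finset.sum_eq_single_of_mem i (Finset.mem_univ _),
      Finset.sum_eq_single_of_mem j (Finset.mem_univ _)]
    · simp
    · intro b _ hb; simp [hb]
    · intro b _ hb
      exact Finset.sum_eq_zero fun _ _ => by simp [hb]

/-- **Upper bound** for the powers. -/
theorem dle_matAlg_pow {m r : ℕ} (hm : 1 ≤ m) (h : MM k (Fin m) r) (n : ℕ) :
    Dle k (⨂[k] _ : Fin n, MatAlg k m) ((12 * r) ^ n) := (dle_matAlg hm h).pow n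

end Pool.Agent.H15.Defect
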