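import Mathlib

/-!
# Algebras with Hilbert function `(1, v, w)`

For a symmetric bilinear map `β : V × V → W`, the algebra `k ⊕ V ⊕ W`.
-/

open Module

namespace Pool.Agent.H15.Defect

universe u

/-- Symmetric bilinear maps `V × V → W`. -/
structure SymBil (k V W : Type*) [Field k] [AddCommGroup V] [Module k V] [AddCommGroup W]
    [Module k W] where
  /-- the bilinear map -/
  bil : V →ₗ[k] V →ₗ[k] W
  symm : ∀ x y, bil x y = bil y x

/-- The algebra `k ⊕ V ⊕ W` with product
`(a, x, z) (a', x', z') = (a a', a x' + a' x, a z' + a' z + β(x, x'))`. -/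
def QA {k V W : Type u} [Field k] [AddCommGroup V] [Module k V] [AddCommGroup W]
    [Module k W] (_ : SymBil k V W) : Type u := k × V × W

namespace QA

variable {k V W : Type u} [Field k] [AddCommGroup V] [Module k V] [AddCommGroup W]
  [Module k W] (β : SymBil k V W)

section aux

/-- auxiliary: additive structure (subsumed by the ring structure below) -/
@[reducible] noncomputable def auxAdd : AddCommGroup (QA β) :=
  inferInstanceAs (AddCommGroup (k × V × W))

attribute [local instance] auxAdd

/-- auxiliary: vector space structure (subsumed by the algebra structure below) -/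
@[reducible] noncomputable def auxModule : Module k (QA β) :=
  inferInstanceAs (Module k (k × V × W))

attribute [local instance] auxModule

variable {β}

noncomputable instance : Mul (QA β) :=
  ⟨fun a b => (a.1 * b.1, a.1 • b.2.1 + b.1 • a.2.1,
    a.1 • b.2.2 + b.1 • a.2.2 + β.bil a.2.1 b.2.1)⟩

noncomputable instance : One (QA β) := ⟨(1, 0, 0)⟩

@[simp] theorem mul_fst (a b : QA β) : (a * b).1 = a.1 * b.1 := rfl
@[simp] theorem mul_snd1 (a b : QA β) : (a * b).2.1 = a.1 • b.2.1 + b.1 • a.2.1 := rfl
@[simp] theorem mul_snd2 (a b : QA β) :
    (a * b).2.2 = a.1 • b.2.2 + b.1 • a.2.2 + β.bil a.2.1 b.2.1 := rfl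
@[simp] theorem one_fst : (1 : QA β).1 = 1 := rfl
@[simp] theorem one_snd1 : (1 : QA β).2.1 = 0 := rfl
@[simp] theorem one_snd2 : (1 : QA β).2.2 = 0 := rfl

theorem add_fst (a b : QA β) : (a + b).1 = a.1 + b.1 := rfl
theorem add_snd1 (a b : QA β) : (a + b).2.1 = a.2.1 + b.2.1 := rfl
theorem add_snd2 (a b : QA β) : (a + b).2.2 = a.2.2 + b.2.2 := rfl
@[simp] theorem zero_fst : (0 : QA β).1 = 0 := rfl
@[simp] theorem zero_snd1 : (0 : QA β).2.1 = 0 := rfl
@[simp] theorem zero_snd2 : (0 : QA β).2.2 = 0 := rfl
@[simp] theorem smul_fst (c : k) (a : QA β) : (c • a).1 = c * a.1 := rfl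
@[simp] theorem smul_snd1 (c : k) (a : QA β) : (c • a).2.1 = c • a.2.1 := rfl
@[simp] theorem smul_snd2 (c : k) (a : QA β) : (c • a).2.2 = c • a.2.2 := rfl

@[ext] theorem ext' {a b : QA β} (h1 : a.1 = b.1) (h2 : a.2.1 = b.2.1) (h3 : a.2.2 = b.2.2) :
    a = b := Prod.ext h1 (Prod.ext h2 h3)

noncomputable instance : CommRing (QA β) :=
  { (inferInstance : AddCommGroup (QA β)) with
    mul := (· * ·)
    one := 1
    left_distrib := by
      intro a b c
      apply ext'
      · simp only [mul_fst, add_fst]; ring
      · simp only [mul_snd1, add_fst, add_snd1, smul_add, add_smul]; abel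
      · simp only [mul_snd2, add_fst, add_snd1, add_snd2, smul_add, add_smul, map_add]; abel
    right_distrib := by
      intro a b c
      apply ext'
      · simp only [mul_fst, add_fst]; ring
      · simp only [mul_snd1, add_fst, add_snd1, smul_add, add_smul]; abel
      · simp only [mul_snd2, add_fst, add_snd1, add_snd2, smul_add, add_smul, map_add,
          LinearMap.add_apply]; abel
    zero_mul := by
      intro a
      apply ext'
      · simp
      · simp
      · simp
    mul_zero := by
      intro a
      apply ext'
      · simp
      · simp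
      · simp
    mul_assoc := by
      intro a b c
      apply ext'
      · simp only [mul_fst]; ring
      · simp only [mul_fst, mul_snd1, smul_add, smul_smul]
        rw [mul_comm c.1 a.1, mul_comm c.1 b.1]; abel
      · simp only [mul_fst, mul_snd1, mul_snd2, smul_add, smul_smul, map_add, map_smul,
          LinearMap.add_apply, LinearMap.smul_apply]
        rw [mul_comm c.1 a.1, mul_comm c.1 b.1]; abel
    one_mul := by
      intro a
      apply ext'
      · simp
      · simp
      · simp
    mul_one := by
      intro a
      apply ext'
      · simp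
      · simp
      · simp
    mul_comm := by
      intro a b
      apply ext'
      · simp only [mul_fst]; ring
      · simp only [mul_snd1]; abel
      · simp only [mul_snd2]; rw [β.symm]; abel }

noncomputable instance : Algebra k (QA β) :=
  Algebra.ofModule
    (by
      intro r x y
      apply ext'
      · simp only [mul_fst, smul_fst]; ring
      · simp only [mul_snd1, smul_fst, smul_snd1, smul_add, smul_smul]; rw [mul_comm y.1 r]
      · simp only [mul_snd2, smul_fst, smul_snd1, smul_snd2, smul_add, smul_smul, map_smul,
          LinearMap.smul_apply]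
        rw [mul_comm y.1 r])
    (by
      intro r x y
      apply ext'
      · simp only [mul_fst, smul_fst]; ring
      · simp only [mul_snd1, smul_fst, smul_snd1, smul_add, smul_smul]; rw [mul_comm x.1 r]
      · simp only [mul_snd2, smul_fst, smul_snd1, smul_snd2, smul_add, smul_smul, map_smul,
          LinearMap.smul_apply]
        rw [mul_comm x.1 r])

end aux

variable {β}

theorem algebraMap_eq (r : k) : algebraMap k (QA β) r = (r, 0, 0) := by
  rw [Algebra.algebraMap_eq_smul_one]
  apply ext'
  · simp
  · simp
  · simp

variable (β) in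
/-- the underlying vector space -/
noncomputable def linEquiv : QA β ≃ₗ[k] (k × V × W) where
  toFun a := a
  invFun a := a
  map_add' _ _ := rfl
  map_smul' _ _ := rfl
  left_inv _ := rfl
  right_inv _ := rfl

theorem finrank_eq [Module.Finite k V] [Module.Finite k W] :
    finrank k (QA β) = 1 + (finrank k V + finrank k W) := by
  rw [(linEquiv β).finrank_eq, Module.finrank_prod, Module.finrank_prod, Module.finrank_self]

instance [Module.Finite k V] [Module.Finite k W] : Module.Finite k (QA β) :=
  Module.Finite.equiv (linEquiv β).symm

end QA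

end Pool.Agent.H15.Defect
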