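import Pool.Agent.H15.Defect.Pow
import Pool.Agent.H15.Defect.QA

/-!
# Smoothable algebras from subalgebras of `k⟦X⟧^T`
-/

open TensorProduct Module PowerSeries

namespace Pool.Agent.H15.Defect

open Pool.Agent.H12.Defect

universe u

section lift

variable {k : Type u} [Field k] {𝒜 : Type u} [CommRing 𝒜] [Algebra (PowerSeries k) 𝒜] {B : Type u}
  [CommRing B] [Algebra k B] {π : 𝒜 →+* B} {A : Type u} [CommRing A] [Algebra k A]

theorem IsModel.exists_lift (h : IsModel k π) (ρ : 𝒜 →+* A)
    (hX : ρ (algebraMap (PowerSeries k) 𝒜 X) = 0)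
    (hC : ∀ r : k, ρ (algebraMap (PowerSeries k) 𝒜 (C r)) = algebraMap k A r) :
    ∃ g : B →ₐ[k] A, ∀ a, g (π a) = ρ a := by
  have hker : RingHom.ker π ≤ RingHom.ker ρ := by
    rw [h.ker, Ideal.span_le, Set.singleton_subset_iff]
    exact hX
  let g0 : B →+* A := RingHom.liftOfSurjective π h.surj ⟨ρ, hker⟩
  have hg0 : ∀ a, g0 (π a) = ρ a := RingHom.liftOfRightInverse_comp_apply π _ _ ⟨ρ, hker⟩
  refine ⟨{ g0 with commutes' := ?_ }, hg0⟩
  intro r
  show g0 (algebraMap k B r) = algebraMap k A r
  rw [← h.alg, hg0, hC]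

end lift

section arc

variable {k : Type u} [Field k]

theorem exists_model_subalgebra {𝒜 : Type u} [CommRing 𝒜] [Algebra (PowerSeries k) 𝒜]
    [Module.Finite (PowerSeries k) 𝒜] [Module.Free (PowerSeries k) 𝒜]
    (hred : IsReduced (Om k ⊗[PowerSeries k] 𝒜)) (P : Subalgebra (PowerSeries k) 𝒜) :
    ∃ (B : Type u) (_ : CommRing B) (_ : Algebra k B) (π : P →+* B), IsModel k π := by
  have hnoeth : IsNoetherian (PowerSeries k) 𝒜 := isNoetherian_of_isNoetherianRing_of_finite _ _
  have hPf : Module.Finite (PowerSeries k) P := by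
    show Module.Finite (PowerSeries k) (Subalgebra.toSubmodule P)
    infer_instance
  have hPfr : Module.Free (PowerSeries k) P := by
    show Module.Free (PowerSeries k) (Subalgebra.toSubmodule P)
    infer_instance
  have hPfl : Module.Flat (PowerSeries k) P := inferInstance
  have hred' : IsReduced (Om k ⊗[PowerSeries k] P) := by
    have hinj : Function.Injective
        (Algebra.TensorProduct.map (AlgHom.id (PowerSeries k) (Om k)) P.val) :=
      Module.Flat.lTensor_preserves_injective_linearMap P.val.toLinearMap Subtype.val_injective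
    exact isReduced_of_injective _ hinj
  let I : Ideal P := Ideal.span {algebraMap (PowerSeries k) P X}
  let i : Algebra k (P ⧸ I) := Algebra.compHom (P ⧸ I) (C (R := k))
  refine ⟨P ⧸ I, inferInstance, i, Ideal.Quotient.mk I, ?_⟩
  refine ⟨hPf, hPfl, hred', Ideal.Quotient.mk_surjective, Ideal.mk_ker, ?_⟩
  intro r
  rfl

theorem isReduced_om_pi {T : Type} [Fintype T] :
    IsReduced (Om k ⊗[PowerSeries k] (T → PowerSeries k)) := by
  classical
  have : IsReduced (T → Om k) := isReduced_pi
  let e := Algebra.TensorProduct.piScalarRight (PowerSeries k) (PowerSeries k) (Om k) T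
  exact isReduced_of_injective e e.injective

/-- If a quotient of an algebra of functions on `T` is `A` then `A` is a closed subscheme of a
smoothable scheme of degree at most `|T|`. -/
theorem dle_of_arc {T : Type} [Fintype T] {P₀ : Type u} [CommRing P₀]
    [Algebra (PowerSeries k) P₀] (ev : P₀ →ₐ[PowerSeries k] (T → PowerSeries k))
    {A : Type u} [CommRing A] [Algebra k A] (φ : P₀ →+* A) (hφ : Function.Surjective φ)
    (hX : φ (algebraMap (PowerSeries k) P₀ X) = 0)
    (hC : ∀ r : k, φ (algebraMap (PowerSeries k) P₀ (C r)) = algebraMap k A r)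
    (hker : ∀ p, ev p = 0 → φ p = 0) : Dle k A (Fintype.card T) := by
  obtain ⟨B, i1, i2, π, h⟩ := exists_model_subalgebra (k := k) isReduced_om_pi ev.range
  have hle : RingHom.ker (ev.rangeRestrict : P₀ →+* ev.range) ≤ RingHom.ker φ := by
    intro p hp
    rw [RingHom.mem_ker] at hp ⊢
    exact hker p (congrArg Subtype.val hp)
  have hsur : Function.Surjective (ev.rangeRestrict : P₀ →+* ev.range) :=
    ev.rangeRestrict_surjective
  let ρ : ev.range →+* A := RingHom.liftOfSurjective _ hsur ⟨φ, hle⟩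
  have hρ : ∀ p, ρ (ev.rangeRestrict p) = φ p :=
    RingHom.liftOfRightInverse_comp_apply _ _ _ ⟨φ, hle⟩
  obtain ⟨g, hg⟩ := h.exists_lift ρ (by
      rw [← hX, ← hρ, AlgHom.commutes]) (by
      intro r
      rw [← hC, ← hρ, AlgHom.commutes])
  refine ⟨B, i1, i2, isSmoothable_iff.mpr ⟨_, _, _, _, h⟩, ⟨g, ?_⟩, ?_⟩
  · intro a
    obtain ⟨p, rfl⟩ := hφ a
    exact ⟨π (ev.rangeRestrict p), by rw [hg, hρ]⟩
  · rw [h.finrank_eq]
    have h1 : finrank (PowerSeries k) ev.range ≤ finrank (PowerSeries k) (T → PowerSeries k) :=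
      Submodule.finrank_le (Subalgebra.toSubmodule ev.range)
    rwa [Module.finrank_fintype_fun_eq_card] at h1

end arc

end Pool.Agent.H15.Defect
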