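import Pool.Agent.H12.Defect.Special

/-!
# Closure properties of smoothable finite schemes

Products, tensor products, subalgebras.
-/

open TensorProduct Module PowerSeries

namespace Pool.Agent.H15.Defect

open Pool.Agent.H12.Defect

universe u

/-- algebraic closure of the field of Laurent series -/
abbrev Om (k : Type u) [Field k] : Type u := AlgebraicClosure (LaurentSeries k)

section basics

variable {k : Type u} [Field k]

instance flat_laurent : Module.Flat (PowerSeries k) (LaurentSeries k) :=
  IsLocalization.flat _ (nonZeroDivisors (PowerSeries k))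

instance flat_om : Module.Flat (PowerSeries k) (Om k) :=
  Module.Flat.trans (PowerSeries k) (LaurentSeries k) (Om k)

theorem algebraMap_om_injective : Function.Injective (algebraMap (PowerSeries k) (Om k)) := by
  rw [IsScalarTower.algebraMap_eq (PowerSeries k) (LaurentSeries k) (Om k)]
  exact (algebraMap (LaurentSeries k) (Om k)).injective.comp
    (IsFractionRing.injective (PowerSeries k) (LaurentSeries k))

variable (k) in
theorem isGeometricallyReduced_iff (𝒜 : Type u) [CommRing 𝒜] [Algebra (PowerSeries k) 𝒜] :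
    Algebra.IsGeometricallyReduced (LaurentSeries k) (LaurentSeries k ⊗[PowerSeries k] 𝒜) ↔
      IsReduced (Om k ⊗[PowerSeries k] 𝒜) := by
  rw [Algebra.isGeometricallyReduced_field_iff]
  let e := Algebra.TensorProduct.cancelBaseChange (PowerSeries k) (LaurentSeries k) (Om k) (Om k) 𝒜
  constructor
  · intro h
    exact isReduced_of_injective e.symm e.symm.injective
  · intro h
    exact isReduced_of_injective e e.injective

/-- A smoothing of `B`. -/
structure IsModel (k : Type u) [Field k] {𝒜 : Type u} [CommRing 𝒜] [Algebra (PowerSeries k) 𝒜] {B : Type u} [CommRing B]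
    [Algebra k B] (π : 𝒜 →+* B) : Prop where
  finite : Module.Finite (PowerSeries k) 𝒜
  flat : Module.Flat (PowerSeries k) 𝒜
  reduced : IsReduced (Om k ⊗[PowerSeries k] 𝒜)
  surj : Function.Surjective π
  ker : RingHom.ker π = Ideal.span {algebraMap (PowerSeries k) 𝒜 X}
  alg : ∀ r : k, π (algebraMap (PowerSeries k) 𝒜 (C r)) = algebraMap k B r

theorem isSmoothable_iff {B : Type u} [CommRing B] [Algebra k B] :
    IsSmoothable k B ↔ ∃ (𝒜 : Type u) (_ : CommRing 𝒜) (_ : Algebra (PowerSeries k) 𝒜)
      (π : 𝒜 →+* B), IsModel k π := by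
  constructor
  · rintro ⟨𝒜, i1, i2, h1, h2, h3, π, h4, h5, h6⟩
    exact ⟨𝒜, i1, i2, π, h1, h2, (isGeometricallyReduced_iff k 𝒜).mp h3, h4, h5, h6⟩
  · rintro ⟨𝒜, i1, i2, π, h1, h2, h3, h4, h5, h6⟩
    exact ⟨𝒜, i1, i2, h1, h2, (isGeometricallyReduced_iff k 𝒜).mpr h3, π, h4, h5, h6⟩

variable {𝒜 : Type u} [CommRing 𝒜] [Algebra (PowerSeries k) 𝒜] {B : Type u} [CommRing B]
    [Algebra k B] {π : 𝒜 →+* B}

theorem IsModel.free (h : IsModel k π) : Module.Free (PowerSeries k) 𝒜 := by
  have := h.finite
  have := h.flat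
  exact Module.free_of_flat_of_isLocalRing

theorem IsModel.smul (h : IsModel k π) (r : PowerSeries k) (a : 𝒜) :
    π (r • a) = constantCoeff r • π a := red_smul h.ker h.alg r a

theorem IsModel.map_X (h : IsModel k π) : π (algebraMap (PowerSeries k) 𝒜 X) = 0 := by
  rw [← RingHom.mem_ker, h.ker]; exact Ideal.mem_span_singleton_self _

/-- `k`-linearity from the behaviour on constants and `X`. -/
theorem smul_of {π : 𝒜 →+* B} (hX : π (algebraMap (PowerSeries k) 𝒜 X) = 0)
    (hC : ∀ r : k, π (algebraMap (PowerSeries k) 𝒜 (C r)) = algebraMap k B r)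
    (r : PowerSeries k) (a : 𝒜) : π (r • a) = constantCoeff r • π a := by
  obtain ⟨s, hs⟩ := const_split r
  have h1 : π (algebraMap (PowerSeries k) 𝒜 r) = algebraMap k B (constantCoeff r) := by
    conv_lhs => rw [hs]
    rw [map_add, map_mul, map_add, map_mul, hX, zero_mul, add_zero, hC]
  rw [Algebra.smul_def, map_mul, h1, Algebra.smul_def]

theorem basis_linearIndependent (h : IsModel k π) {ι : Type*} [Fintype ι]
    (b : Basis ι (PowerSeries k) 𝒜) : LinearIndependent k (fun i => π (b i)) := by
  rw [Fintype.linearIndependent_iff]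
  intro α hα i
  have h1 : π (∑ j, (C (α j) : PowerSeries k) • b j) = 0 := by
    rw [map_sum, ← hα]
    refine Finset.sum_congr rfl fun j _ => ?_
    rw [h.smul, constantCoeff_C]
  have h2 : (∑ j, (C (α j) : PowerSeries k) • b j) ∈ Ideal.span {algebraMap (PowerSeries k) 𝒜 X} := by
    rw [← h.ker]; exact h1
  obtain ⟨c, hc⟩ := Ideal.mem_span_singleton'.mp h2
  have h3 : (∑ j, (C (α j) : PowerSeries k) • b j) = (X : PowerSeries k) • c := by
    rw [← hc, Algebra.smul_def, mul_comm]
  have h4 := congrArg (fun z => b.repr z i) h3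
  simp only [map_sum, map_smul, Finsupp.coe_finset_sum, Finset.sum_apply, Finsupp.smul_apply,
    Basis.repr_self, smul_eq_mul] at h4
  rw [Finset.sum_eq_single i] at h4
  · rw [Finsupp.single_eq_same, mul_one] at h4
    have := congrArg constantCoeff h4
    simpa using this
  · intro j _ hj
    rw [Finsupp.single_eq_of_ne (Ne.symm hj), mul_zero]
  · intro h; exact absurd (Finset.mem_univ i) h

theorem basis_span (h : IsModel k π) {ι : Type*} [Fintype ι]
    (b : Basis ι (PowerSeries k) 𝒜) : ⊤ ≤ Submodule.span k (Set.range fun i => π (b i)) := by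
  intro x _
  obtain ⟨a, rfl⟩ := h.surj x
  rw [← b.sum_repr a, map_sum]
  refine Submodule.sum_mem _ fun i _ => ?_
  rw [h.smul]
  exact Submodule.smul_mem _ _ (Submodule.subset_span ⟨i, rfl⟩)

/-- The reduction of a basis. -/
noncomputable def IsModel.basis (h : IsModel k π) {ι : Type*} [Fintype ι]
    (b : Basis ι (PowerSeries k) 𝒜) : Basis ι k B :=
  Basis.mk (basis_linearIndependent h b) (basis_span h b)

@[simp] theorem IsModel.basis_apply (h : IsModel k π) {ι : Type*} [Fintype ι]
    (b : Basis ι (PowerSeries k) 𝒜) (i : ι) : h.basis b i = π (b i) := by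
  simp [IsModel.basis]

theorem IsModel.finrank_eq (h : IsModel k π) : finrank k B = finrank (PowerSeries k) 𝒜 := by
  have := h.free
  have := h.finite
  let b := Module.Free.chooseBasis (PowerSeries k) 𝒜
  rw [finrank_eq_card_basis b, finrank_eq_card_basis (h.basis b)]

theorem IsModel.finite_special (h : IsModel k π) : Module.Finite k B := by
  have := h.free
  have := h.finite
  exact Module.Finite.of_basis (h.basis (Module.Free.chooseBasis (PowerSeries k) 𝒜))

theorem IsSmoothable.finite (h : IsSmoothable k B) : Module.Finite k B := by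
  obtain ⟨_, _, _, _, h⟩ := isSmoothable_iff.mp h
  exact h.finite_special

/-- The kernel is generated by `X` as soon as a basis maps to a linearly independent family. -/
theorem ker_eq_of_linearIndependent {π : 𝒜 →+* B} (hX : π (algebraMap (PowerSeries k) 𝒜 X) = 0)
    (hC : ∀ r : k, π (algebraMap (PowerSeries k) 𝒜 (C r)) = algebraMap k B r)
    {ι : Type*} [Fintype ι] (b : Basis ι (PowerSeries k) 𝒜)
    (hli : LinearIndependent k (fun i => π (b i))) :
    RingHom.ker π = Ideal.span {algebraMap (PowerSeries k) 𝒜 X} := by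
  apply le_antisymm
  · intro a ha
    rw [RingHom.mem_ker] at ha
    have h1 : ∑ i, constantCoeff (b.repr a i) • π (b i) = 0 := by
      rw [← ha]
      conv_rhs => rw [← b.sum_repr a, map_sum]
      exact Finset.sum_congr rfl fun i _ => (smul_of hX hC _ _).symm
    have h2 := Fintype.linearIndependent_iff.mp hli _ h1
    have h3 : ∀ i, ∃ s, b.repr a i = X * s := fun i => X_dvd_iff.mpr (h2 i)
    choose s hs using h3
    rw [Ideal.mem_span_singleton']
    refine ⟨∑ i, s i • b i, ?_⟩
    conv_rhs => rw [← b.sum_repr a]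
    rw [Finset.sum_mul]
    refine Finset.sum_congr rfl fun i _ => ?_
    rw [hs, mul_comm, ← Algebra.smul_def, smul_smul]
  · rw [Ideal.span_le, Set.singleton_subset_iff]
    exact hX

end basics

section equiv

variable {k : Type u} [Field k]

theorem IsSmoothable.of_equiv {B B' : Type u} [CommRing B] [Algebra k B] [CommRing B']
    [Algebra k B'] (e : B ≃ₐ[k] B') (h : IsSmoothable k B) : IsSmoothable k B' := by
  rw [isSmoothable_iff] at h ⊢
  obtain ⟨𝒜, i1, i2, π, h⟩ := h
  refine ⟨𝒜, i1, i2, (e : B →+* B').comp π, h.finite, h.flat, h.reduced, ?_, ?_, ?_⟩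
  · exact e.surjective.comp h.surj
  · rw [← h.ker]
    ext a
    simp [RingHom.mem_ker]
  · intro r
    simp [h.alg]

end equiv

section prod

variable {k : Type u} [Field k]

theorem isReduced_prod {A B : Type*} [CommRing A] [CommRing B] [IsReduced A] [IsReduced B] :
    IsReduced (A × B) := by
  refine ⟨fun x hx => ?_⟩
  have h1 : IsNilpotent x.1 := hx.map (RingHom.fst A B)
  have h2 : IsNilpotent x.2 := hx.map (RingHom.snd A B)
  ext
  · exact h1.eq_zero
  · exact h2.eq_zero

theorem IsModel.prod {𝒜 ℬ : Type u} [CommRing 𝒜] [Algebra (PowerSeries k) 𝒜] [CommRing ℬ]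
    [Algebra (PowerSeries k) ℬ] {A B : Type u} [CommRing A] [Algebra k A] [CommRing B]
    [Algebra k B] {π : 𝒜 →+* A} {ρ : ℬ →+* B} (h : IsModel k π) (h' : IsModel k ρ) :
    IsModel k (π.prodMap ρ) where
  finite := by
    have := h.finite
    have := h'.finite
    infer_instance
  flat := by
    have := h.free
    have := h'.free
    infer_instance
  reduced := by
    have := h.reduced
    have := h'.reduced
    have : IsReduced ((Om k ⊗[PowerSeries k] 𝒜) × (Om k ⊗[PowerSeries k] ℬ)) := isReduced_prod
    let e := Algebra.TensorProduct.prodRight (PowerSeries k) (Om k) (Om k) 𝒜 ℬ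
    exact isReduced_of_injective e e.injective
  surj := by
    rintro ⟨a, b⟩
    obtain ⟨a', rfl⟩ := h.surj a
    obtain ⟨b', rfl⟩ := h'.surj b
    exact ⟨(a', b'), rfl⟩
  ker := by
    ext ⟨a, b⟩
    rw [RingHom.mem_ker, Ideal.mem_span_singleton']
    constructor
    · intro h0
      have h1 : π a = 0 := congrArg Prod.fst h0
      have h2 : ρ b = 0 := congrArg Prod.snd h0
      rw [← RingHom.mem_ker, h.ker, Ideal.mem_span_singleton'] at h1
      rw [← RingHom.mem_ker, h'.ker, Ideal.mem_span_singleton'] at h2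
      obtain ⟨c, hc⟩ := h1
      obtain ⟨d, hd⟩ := h2
      exact ⟨(c, d), Prod.ext hc hd⟩
    · rintro ⟨⟨c, d⟩, hcd⟩
      have h1 : c * algebraMap (PowerSeries k) 𝒜 X = a := congrArg Prod.fst hcd
      have h2 : d * algebraMap (PowerSeries k) ℬ X = b := congrArg Prod.snd hcd
      refine Prod.ext ?_ ?_
      · show π a = 0
        rw [← h1, map_mul, h.map_X, mul_zero]
      · show ρ b = 0
        rw [← h2, map_mul, h'.map_X, mul_zero]
  alg := by
    intro r
    exact Prod.ext (h.alg r) (h'.alg r)

theorem IsSmoothable.prod {A B : Type u} [CommRing A] [Algebra k A] [CommRing B]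
    [Algebra k B] (hA : IsSmoothable k A) (hB : IsSmoothable k B) : IsSmoothable k (A × B) := by
  rw [isSmoothable_iff] at hA hB ⊢
  obtain ⟨𝒜, i1, i2, π, h⟩ := hA
  obtain ⟨ℬ, j1, j2, ρ, h'⟩ := hB
  exact ⟨𝒜 × ℬ, inferInstance, inferInstance, π.prodMap ρ, h.prod h'⟩

end prod

end Pool.Agent.H15.Defect
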