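import Pool.Agent.H15.Defect.Basic

/-!
# Tensor products, subalgebras and components of smoothable finite schemes
-/

open TensorProduct Module PowerSeries

namespace Pool.Agent.H15.Defect

open Pool.Agent.H12.Defect

universe u

section tensor

variable {k : Type u} [Field k]

theorem isReduced_pi {ι : Type*} {A : ι → Type*} [∀ i, CommRing (A i)] [∀ i, IsReduced (A i)] :
    IsReduced (∀ i, A i) := by
  refine ⟨fun x hx => ?_⟩
  funext i
  exact (hx.map (Pi.evalRingHom A i)).eq_zero

variable {𝒜 ℬ : Type u} [CommRing 𝒜] [Algebra (PowerSeries k) 𝒜] [CommRing ℬ]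
    [Algebra (PowerSeries k) ℬ] {A B : Type u} [CommRing A] [Algebra k A] [CommRing B]
    [Algebra k B] {π : 𝒜 →+* A} {ρ : ℬ →+* B}

theorem IsModel.reduced_tensor (h : IsModel k π) (h' : IsModel k ρ) :
    IsReduced (Om k ⊗[PowerSeries k] (𝒜 ⊗[PowerSeries k] ℬ)) := by
  have hf := h.finite
  have hfr := h.free
  have hr := h.reduced
  have hr' := h'.reduced
  obtain ⟨T, _, ⟨e⟩⟩ := exists_algEquiv_pi (Om k) (Om k ⊗[PowerSeries k] 𝒜)
  classical
  let e1 : Om k ⊗[PowerSeries k] (𝒜 ⊗[PowerSeries k] ℬ) ≃ₐ[PowerSeries k]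
      (Om k ⊗[PowerSeries k] 𝒜) ⊗[PowerSeries k] ℬ :=
    (Algebra.TensorProduct.assoc (PowerSeries k) (PowerSeries k) (PowerSeries k) (Om k) 𝒜 ℬ).symm
  let e2 : (Om k ⊗[PowerSeries k] 𝒜) ⊗[PowerSeries k] ℬ ≃ₐ[PowerSeries k]
      (T → Om k) ⊗[PowerSeries k] ℬ :=
    Algebra.TensorProduct.congr (e.restrictScalars (PowerSeries k)) AlgEquiv.refl
  let e3 : (T → Om k) ⊗[PowerSeries k] ℬ ≃ₐ[PowerSeries k] ℬ ⊗[PowerSeries k] (T → Om k) :=
    Algebra.TensorProduct.comm _ _ _
  let e4 : ℬ ⊗[PowerSeries k] (T → Om k) ≃ₐ[PowerSeries k] (T → ℬ ⊗[PowerSeries k] Om k) :=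
    Algebra.TensorProduct.piRight (PowerSeries k) (PowerSeries k) ℬ (fun _ : T => Om k)
  have h1 : IsReduced (ℬ ⊗[PowerSeries k] Om k) :=
    isReduced_of_injective (Algebra.TensorProduct.comm (PowerSeries k) ℬ (Om k))
      (Algebra.TensorProduct.comm (PowerSeries k) ℬ (Om k)).injective
  have h2 : IsReduced (T → ℬ ⊗[PowerSeries k] Om k) := isReduced_pi
  let E := ((e1.trans e2).trans e3).trans e4
  exact isReduced_of_injective E E.injective

/-- structure of `PowerSeries k`-algebra through the constant coefficient -/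
@[reducible] noncomputable def constAlg (k : Type u) [Field k] (A : Type u) [CommRing A]
    [Algebra k A] : Algebra (PowerSeries k) A :=
  ((algebraMap k A).comp (constantCoeff (R := k))).toAlgebra

/-- The tensor product of two reductions. -/
noncomputable def tensorRed (h : IsModel k π) (h' : IsModel k ρ) :
    𝒜 ⊗[PowerSeries k] ℬ →+* A ⊗[k] B :=
  letI : Algebra (PowerSeries k) (A ⊗[k] B) := constAlg k _
  letI f : 𝒜 →ₐ[PowerSeries k] A ⊗[k] B :=
    { ((Algebra.TensorProduct.includeLeft : A →ₐ[k] A ⊗[k] B) : A →+* A ⊗[k] B).comp π with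
      commutes' := by
        intro r
        have h1 : π (algebraMap (PowerSeries k) 𝒜 r) = algebraMap k A (constantCoeff r) := by
          have := h.smul r 1
          rwa [Algebra.smul_def, mul_one, map_one, ← Algebra.algebraMap_eq_smul_one] at this
        show (π (algebraMap (PowerSeries k) 𝒜 r)) ⊗ₜ[k] (1 : B) = algebraMap k (A ⊗[k] B) (constantCoeff r)
        rw [h1]
        rfl }
  letI g : ℬ →ₐ[PowerSeries k] A ⊗[k] B :=
    { ((Algebra.TensorProduct.includeRight : B →ₐ[k] A ⊗[k] B) : B →+* A ⊗[k] B).comp ρ with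
      commutes' := by
        intro r
        have h1 : ρ (algebraMap (PowerSeries k) ℬ r) = algebraMap k B (constantCoeff r) := by
          have := h'.smul r 1
          rwa [Algebra.smul_def, mul_one, map_one, ← Algebra.algebraMap_eq_smul_one] at this
        show (1 : A) ⊗ₜ[k] (ρ (algebraMap (PowerSeries k) ℬ r)) = algebraMap k (A ⊗[k] B) (constantCoeff r)
        rw [h1]
        exact ((Algebra.TensorProduct.includeRight : B →ₐ[k] A ⊗[k] B).commutes _) }
  (Algebra.TensorProduct.productMap f g : 𝒜 ⊗[PowerSeries k] ℬ →ₐ[PowerSeries k] A ⊗[k] B).toRingHom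

theorem tensorRed_tmul (h : IsModel k π) (h' : IsModel k ρ) (a : 𝒜) (b : ℬ) :
    tensorRed h h' (a ⊗ₜ b) = π a ⊗ₜ ρ b := by
  show (π a ⊗ₜ[k] (1 : B)) * ((1 : A) ⊗ₜ[k] ρ b) = _
  rw [Algebra.TensorProduct.tmul_mul_tmul, mul_one, one_mul]

theorem IsModel.tensor (h : IsModel k π) (h' : IsModel k ρ) : IsModel k (tensorRed h h') := by
  have hf := h.finite
  have hfr := h.free
  have hf' := h'.finite
  have hfr' := h'.free
  have hX : tensorRed h h' (algebraMap (PowerSeries k) (𝒜 ⊗[PowerSeries k] ℬ) X) = 0 := by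
    rw [Algebra.TensorProduct.algebraMap_apply, tensorRed_tmul, h.map_X, TensorProduct.zero_tmul]
  have hC : ∀ r : k, tensorRed h h' (algebraMap (PowerSeries k) (𝒜 ⊗[PowerSeries k] ℬ) (C r)) =
      algebraMap k (A ⊗[k] B) r := by
    intro r
    rw [Algebra.TensorProduct.algebraMap_apply, tensorRed_tmul, h.alg, map_one,
      Algebra.TensorProduct.algebraMap_apply]
  refine ⟨inferInstance, inferInstance, h.reduced_tensor h', ?_, ?_, hC⟩
  · intro x
    induction x using TensorProduct.induction_on with
    | zero => exact ⟨0, map_zero _⟩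
    | tmul a b =>
      obtain ⟨a', rfl⟩ := h.surj a
      obtain ⟨b', rfl⟩ := h'.surj b
      exact ⟨a' ⊗ₜ b', tensorRed_tmul h h' a' b'⟩
    | add x y hx hy =>
      obtain ⟨x', rfl⟩ := hx
      obtain ⟨y', rfl⟩ := hy
      exact ⟨x' + y', map_add _ _ _⟩
  · let b := Module.Free.chooseBasis (PowerSeries k) 𝒜
    let c := Module.Free.chooseBasis (PowerSeries k) ℬ
    refine ker_eq_of_linearIndependent hX hC (b.tensorProduct c) ?_
    have h1 := ((h.basis b).tensorProduct (h'.basis c)).linearIndependent
    have h2 : (fun i => tensorRed h h' ((b.tensorProduct c) i)) =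
        ⇑((h.basis b).tensorProduct (h'.basis c)) := by
      funext i
      obtain ⟨i, j⟩ := i
      rw [Basis.tensorProduct_apply, tensorRed_tmul]
      simp
    rw [h2]
    exact h1

theorem IsSmoothable.tensor (hA : IsSmoothable k A) (hB : IsSmoothable k B) :
    IsSmoothable k (A ⊗[k] B) := by
  rw [isSmoothable_iff] at hA hB ⊢
  obtain ⟨𝒜, i1, i2, π, h⟩ := hA
  obtain ⟨ℬ, j1, j2, ρ, h'⟩ := hB
  exact ⟨𝒜 ⊗[PowerSeries k] ℬ, inferInstance, inferInstance, tensorRed h h', h.tensor h'⟩

end tensor

section field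

variable (k : Type u) [Field k]

theorem isSmoothable_self : IsSmoothable k k := by
  rw [isSmoothable_iff]
  refine ⟨PowerSeries k, inferInstance, inferInstance, constantCoeff (R := k), inferInstance,
    inferInstance, ?_, ?_, ?_, ?_⟩
  · let e := Algebra.TensorProduct.rid (PowerSeries k) (PowerSeries k) (Om k)
    exact isReduced_of_injective e e.injective
  · intro r
    exact ⟨C r, constantCoeff_C r⟩
  · ext a
    rw [RingHom.mem_ker, Ideal.mem_span_singleton, Algebra.algebraMap_self, RingHom.id_apply]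
    exact X_dvd_iff.symm
  · intro r
    simp

end field

section subalgebra

variable {k : Type u} [Field k] {𝒜 : Type u} [CommRing 𝒜] [Algebra (PowerSeries k) 𝒜] {B : Type u}
  [CommRing B] [Algebra k B] {π : 𝒜 →+* B}

/-- preimage of a subalgebra -/
noncomputable def preSub (h : IsModel k π) (S : Subalgebra k B) : Subalgebra (PowerSeries k) 𝒜 where
  carrier := {a | π a ∈ S}
  mul_mem' := by
    intro a b ha hb
    show π (a * b) ∈ S
    rw [map_mul]; exact S.mul_mem ha hb
  add_mem' := by
    intro a b ha hb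
    show π (a + b) ∈ S
    rw [map_add]; exact S.add_mem ha hb
  algebraMap_mem' := by
    intro r
    show π (algebraMap (PowerSeries k) 𝒜 r) ∈ S
    have := h.smul r 1
    rw [Algebra.smul_def, mul_one, map_one] at this
    rw [this]
    exact S.smul_mem S.one_mem _

theorem mem_preSub (h : IsModel k π) (S : Subalgebra k B) (a : 𝒜) :
    a ∈ preSub h S ↔ π a ∈ S := Iff.rfl

/-- A subalgebra of a smoothable algebra is a quotient of a smoothable algebra of the same
dimension. -/
theorem exists_smoothable_of_subalgebra (hB : IsSmoothable k B) (S : Subalgebra k B) :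
    ∃ (B' : Type u) (_ : CommRing B') (_ : Algebra k B'), IsSmoothable k B' ∧
      (∃ g : B' →ₐ[k] S, Function.Surjective g) ∧ finrank k B' = finrank k B := by
  obtain ⟨𝒜, i1, i2, π, h⟩ := isSmoothable_iff.mp hB
  have hf := h.finite
  have hfr := h.free
  let P := preSub h S
  have hnoeth : IsNoetherian (PowerSeries k) 𝒜 := isNoetherian_of_isNoetherianRing_of_finite _ _
  have hPf : Module.Finite (PowerSeries k) P := by
    show Module.Finite (PowerSeries k) (Subalgebra.toSubmodule P)
    infer_instance
  have hPfr : Module.Free (PowerSeries k) P := by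
    show Module.Free (PowerSeries k) (Subalgebra.toSubmodule P)
    infer_instance
  have hPfl : Module.Flat (PowerSeries k) P := inferInstance
  have hred : IsReduced (Om k ⊗[PowerSeries k] P) := by
    have := h.reduced
    have hinj : Function.Injective (Algebra.TensorProduct.map (AlgHom.id (PowerSeries k) (Om k)) P.val) :=
      Module.Flat.lTensor_preserves_injective_linearMap P.val.toLinearMap Subtype.val_injective
    exact isReduced_of_injective _ hinj
  let I : Ideal P := Ideal.span {algebraMap (PowerSeries k) P X}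
  let _ : Algebra k (P ⧸ I) := Algebra.compHom (P ⧸ I) (C (R := k))
  have hmod : IsModel k (𝒜 := P) (B := P ⧸ I) (Ideal.Quotient.mk I) := by
    refine ⟨hPf, hPfl, hred, Ideal.Quotient.mk_surjective, Ideal.mk_ker, ?_⟩
    intro r
    rfl
  have hsm : IsSmoothable k (P ⧸ I) := isSmoothable_iff.mpr ⟨P, inferInstance, inferInstance, _, hmod⟩
  refine ⟨P ⧸ I, inferInstance, inferInstance, hsm, ?_, ?_⟩
  · let g0 : P →+* S := (π.comp P.toSubring.subtype).codRestrict S.toSubring (fun a => a.2)
    have hg0 : ∀ a ∈ I, g0 a = 0 := by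
      intro a ha
      obtain ⟨c, hc⟩ := Ideal.mem_span_singleton'.mp ha
      apply Subtype.ext
      show π (a : 𝒜) = 0
      rw [← hc]
      show π ((c : 𝒜) * algebraMap (PowerSeries k) 𝒜 X) = 0
      rw [map_mul, h.map_X, mul_zero]
    let g1 : P ⧸ I →+* S := Ideal.Quotient.lift I g0 hg0
    let g : P ⧸ I →ₐ[k] S := { g1 with
      commutes' := by
        intro r
        apply Subtype.ext
        show π (algebraMap (PowerSeries k) 𝒜 (C r)) = algebraMap k B r
        exact h.alg r }
    refine ⟨g, ?_⟩
    rintro ⟨s, hs⟩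
    obtain ⟨a, ha⟩ := h.surj s
    refine ⟨Ideal.Quotient.mk I ⟨a, by rw [mem_preSub, ha]; exact hs⟩, ?_⟩
    apply Subtype.ext
    exact ha
  · rw [hmod.finrank_eq, h.finrank_eq]
    apply le_antisymm
    · exact Submodule.finrank_le (Subalgebra.toSubmodule P)
    · let f : 𝒜 →ₗ[PowerSeries k] P :=
        { toFun := fun a => ⟨(X : PowerSeries k) • a, by
            rw [mem_preSub, h.smul]; simp [S.zero_mem]⟩
          map_add' := by
            intro a b; apply Subtype.ext; simp
          map_smul' := by
            intro c a; apply Subtype.ext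
            simp only [RingHom.id_apply, SetLike.val_smul]
            rw [smul_comm] }
      have hf : Function.Injective f := by
        intro a b hab
        have h1 : (X : PowerSeries k) • a = (X : PowerSeries k) • b := congrArg Subtype.val hab
        exact smul_right_injective 𝒜 X_ne_zero h1
      exact LinearMap.finrank_le_finrank_of_injective hf

end subalgebra

end Pool.Agent.H15.Defect
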