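import Pool.Agent.H15.Defect.Arc

/-!
# `k[t]/t³` and algebras given by sums of squares
-/

open TensorProduct Module

namespace Pool.Agent.H15.Defect

open Pool.Agent.H12.Defect

universe u

section J3

variable (k : Type u) [Field k]

/-- multiplication of `k` as a symmetric bilinear map -/
noncomputable def mulBil : SymBil k k k where
  bil := LinearMap.mul k k
  symm := fun x y => mul_comm x y

/-- the algebra `k[t]/t³` -/
abbrev J3 : Type u := QA (mulBil k)

/-- the generator `t` -/
noncomputable def tt : J3 k := ((0 : k), (1 : k), (0 : k))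

theorem tt_sq : tt k * tt k = ((0 : k), (0 : k), (1 : k)) := by
  apply QA.ext'
  · simp [tt]
  · simp [tt]
  · simp [tt, mulBil]

theorem tt_cube : tt k * (tt k * tt k) = 0 := by
  rw [tt_sq]
  apply QA.ext'
  · simp [tt]
  · simp [tt]
  · simp [tt]

theorem dle_J3 : Dle k (J3 k) 3 := by
  let c : PowerSeries k →+* J3 k := (algebraMap k (J3 k)).comp PowerSeries.constantCoeff
  let φ : Polynomial (PowerSeries k) →+* J3 k := Polynomial.eval₂RingHom c (tt k)
  let pt : Fin 3 → PowerSeries k := ![0, PowerSeries.X, PowerSeries.X ^ 2]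
  let ev : Polynomial (PowerSeries k) →ₐ[PowerSeries k] (Fin 3 → PowerSeries k) := AlgHom.pi (fun i => Polynomial.aeval (pt i))
  have hev : ∀ p i, ev p i = p.eval (pt i) := fun p i => by
    simp [ev, Polynomial.aeval_def, Polynomial.eval₂_eq_eval_map]
  have h := dle_of_arc (k := k) ev φ ?_ ?_ ?_ ?_
  · simpa using h
  · rintro ⟨a, b, d⟩
    refine ⟨Polynomial.C (PowerSeries.C a) + Polynomial.C (PowerSeries.C b) * Polynomial.X +
      Polynomial.C (PowerSeries.C d) * (Polynomial.X * Polynomial.X), ?_⟩
    simp only [φ, map_add, map_mul, Polynomial.coe_eval₂RingHom, Polynomial.eval₂_C,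
      Polynomial.eval₂_X, tt_sq, c, RingHom.comp_apply, PowerSeries.constantCoeff_C,
      QA.algebraMap_eq]
    apply QA.ext'
    · simp [tt, QA.add_fst]
    · simp [tt, QA.add_snd1]
    · simp [tt, QA.add_snd2]
  · show φ (algebraMap (PowerSeries k) (Polynomial (PowerSeries k)) PowerSeries.X) = 0
    rw [Polynomial.algebraMap_eq]
    simp [φ, c]
  · intro r
    show φ (algebraMap (PowerSeries k) (Polynomial (PowerSeries k)) (PowerSeries.C r)) = _
    rw [Polynomial.algebraMap_eq]
    simp [φ, c]
  · intro p hp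
    have h0 : p.eval 0 = 0 := by
      have := (hev p 0).symm.trans (congrFun hp 0)
      exact this
    have h1 : p.eval (PowerSeries.X : PowerSeries k) = 0 := by
      have := (hev p 1).symm.trans (congrFun hp 1)
      exact this
    have h2 : p.eval ((PowerSeries.X : PowerSeries k) ^ 2) = 0 := by
      have := (hev p 2).symm.trans (congrFun hp 2)
      exact this
    obtain ⟨q1, rfl⟩ := Polynomial.dvd_iff_isRoot.mpr h0
    have hX : (PowerSeries.X : PowerSeries k) ≠ 0 := PowerSeries.X_ne_zero
    rw [Polynomial.eval_mul] at h1 h2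
    simp only [map_zero, sub_zero, Polynomial.eval_X, mul_eq_zero, hX, false_or,
      pow_eq_zero_iff, ne_eq, OfNat.ofNat_ne_zero, not_false_eq_true] at h1 h2
    obtain ⟨q2, rfl⟩ := Polynomial.dvd_iff_isRoot.mpr h1
    rw [Polynomial.eval_mul] at h2
    have hX2 : (PowerSeries.X : PowerSeries k) ^ 2 - PowerSeries.X ≠ 0 := by
      intro h
      have h3 : (PowerSeries.X : PowerSeries k) * (PowerSeries.X - 1) = 0 := by rw [← h]; ring
      rcases mul_eq_zero.mp h3 with h4 | h4
      · exact hX h4
      · have := congrArg PowerSeries.constantCoeff h4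
        simp at this
    simp only [Polynomial.eval_sub, Polynomial.eval_X, Polynomial.eval_C, mul_eq_zero, hX2,
      false_or] at h2
    obtain ⟨q3, rfl⟩ := Polynomial.dvd_iff_isRoot.mpr h2
    have e1 : φ (Polynomial.X - Polynomial.C (0 : PowerSeries k)) = tt k := by simp [φ, c]
    have e2 : φ (Polynomial.X - Polynomial.C (PowerSeries.X : PowerSeries k)) = tt k := by simp [φ, c]
    have e3 : φ (Polynomial.X - Polynomial.C ((PowerSeries.X : PowerSeries k) ^ 2)) = tt k := by
      rw [map_sub]
      simp only [φ, c, Polynomial.coe_eval₂RingHom, Polynomial.eval₂_X, Polynomial.eval₂_C,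
        RingHom.comp_apply, map_pow, PowerSeries.constantCoeff_X]
      simp
    rw [map_mul, map_mul, map_mul, e1, e2, e3, ← mul_assoc, ← mul_assoc, mul_assoc (tt k),
      tt_cube, zero_mul]

end J3

section map

variable {k : Type u} [Field k] {V W V' W' : Type u} [AddCommGroup V] [Module k V]
  [AddCommGroup W] [Module k W] [AddCommGroup V'] [Module k V'] [AddCommGroup W'] [Module k W']
  {β : SymBil k V W} {β' : SymBil k V' W'}

/-- functoriality -/
noncomputable def QA.map (f : V →ₗ[k] V') (g : W →ₗ[k] W')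
    (h : ∀ x y, β'.bil (f x) (f y) = g (β.bil x y)) : QA β →ₐ[k] QA β' :=
  AlgHom.ofLinearMap
    { toFun := fun a => ((a.1, f a.2.1, g a.2.2) : QA β')
      map_add' := by
        intro a b
        apply QA.ext'
        · rfl
        · exact map_add f _ _
        · exact map_add g _ _
      map_smul' := by
        intro c a
        apply QA.ext'
        · rfl
        · exact map_smul f _ _
        · exact map_smul g _ _ }
    (by
      apply QA.ext'
      · rfl
      · exact map_zero f
      · exact map_zero g)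
    (by
      intro a b
      apply QA.ext'
      · rfl
      · simp
      · simp [h])

@[simp] theorem QA.map_fst (f : V →ₗ[k] V') (g : W →ₗ[k] W')
    (h : ∀ x y, β'.bil (f x) (f y) = g (β.bil x y)) (a : QA β) : (QA.map f g h a).1 = a.1 := rfl

@[simp] theorem QA.map_snd1 (f : V →ₗ[k] V') (g : W →ₗ[k] W')
    (h : ∀ x y, β'.bil (f x) (f y) = g (β.bil x y)) (a : QA β) :
    (QA.map f g h a).2.1 = f a.2.1 := rfl

@[simp] theorem QA.map_snd2 (f : V →ₗ[k] V') (g : W →ₗ[k] W')
    (h : ∀ x y, β'.bil (f x) (f y) = g (β.bil x y)) (a : QA β) :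
    (QA.map f g h a).2.2 = g a.2.2 := rfl

end map

section squares

variable {k : Type u} [Field k] {V W : Type u} [AddCommGroup V] [Module k V]
  [AddCommGroup W] [Module k W] {r : ℕ}

/-- the bilinear map `(x, y) ↦ (ℓ_t(x) ℓ_t(y))_t` -/
noncomputable def sqBil (ℓ : Fin r → (V →ₗ[k] k)) : SymBil k V (Fin r → k) where
  bil := LinearMap.mk₂ k (fun x y t => ℓ t x * ℓ t y)
    (by intro x x' y; funext t; simp [add_mul])
    (by intro c x y; funext t; simp [mul_assoc])
    (by intro x y y'; funext t; simp [mul_add])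
    (by intro c x y; funext t; simp [mul_left_comm])
  symm := by
    intro x y
    funext t
    simp [mul_comm]

theorem sqBil_apply (ℓ : Fin r → (V →ₗ[k] k)) (x y : V) (t : Fin r) :
    (sqBil ℓ).bil x y t = ℓ t x * ℓ t y := rfl

/-- If `β(x, y) = ∑_t ℓ_t(x) ℓ_t(y) w_t` with `r` terms, then the scheme of the algebra
`k ⊕ V ⊕ W` is contained in a smoothable scheme of degree at most `3r`. -/
theorem dle_of_squares {β : SymBil k V W} (hr : 0 < r) (ℓ : Fin r → (V →ₗ[k] k)) (w : Fin r → W)
    (hβ : ∀ x y, β.bil x y = ∑ t, (ℓ t x * ℓ t y) • w t)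
    (hsep : ∀ x, (∀ t, ℓ t x = 0) → x = 0)
    (hspan : ∀ z : W, ∃ c : Fin r → k, ∑ t, c t • w t = z) : Dle k (QA β) (r * 3) := by
  have h1 := (dle_J3 k).pi r
  let ι : QA (sqBil ℓ) →ₐ[k] (Fin r → J3 k) := AlgHom.pi fun t =>
    QA.map (β := sqBil ℓ) (β' := mulBil k) (ℓ t) (LinearMap.proj t) (by
      intro x y
      rfl)
  have hι : Function.Injective ι := by
    rw [injective_iff_map_eq_zero]
    intro a ha
    have h2 : ∀ t, QA.map (β := sqBil ℓ) (β' := mulBil k) (ℓ t) (LinearMap.proj t) (by
      intro x y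
      rfl) a = 0 := fun t => congrFun ha t
    apply QA.ext'
    · exact congrArg (fun z : J3 k => z.1) (h2 ⟨0, hr⟩)
    · apply hsep
      intro t
      exact congrArg (fun z : J3 k => z.2.1) (h2 t)
    · funext t
      exact congrArg (fun z : J3 k => z.2.2) (h2 t)
  have h2 := h1.of_injective ι hι
  let q : QA (sqBil ℓ) →ₐ[k] QA β :=
    QA.map LinearMap.id (∑ t, (LinearMap.proj t : (Fin r → k) →ₗ[k] k).smulRight (w t)) (by
      intro x y
      rw [LinearMap.id_apply, LinearMap.id_apply, hβ, LinearMap.sum_apply]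
      rfl)
  refine h2.of_surjective q ?_
  rintro ⟨a, x, z⟩
  obtain ⟨c, hc⟩ := hspan z
  refine ⟨(a, x, c), ?_⟩
  apply QA.ext'
  · rfl
  · rfl
  · rw [← hc, QA.map_snd2, LinearMap.sum_apply]
    rfl

end squares

end Pool.Agent.H15.Defect
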