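import Pool.Agent.H15.Defect.Points

/-!
# Border decompositions give decompositions of the Kronecker powers
-/

open TensorProduct Module PowerSeries

namespace Pool.Agent.H15.Defect

open Pool.Agent.H12.Defect

universe u

variable {k : Type u} [Field k]

/-- the Kronecker power of a family of scalars -/
def pw {κ : Type} (N : ℕ) (z : κ → k) : (Fin N → κ) → k := fun f => ∏ s, z (f s)

/-- The powers `pw N z` lie in a space of dimension at most `(N+1)^|κ|`. -/
theorem exists_range {κ : Type} [Fintype κ] [DecidableEq κ] (N : ℕ) :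
    ∃ Φ : ((κ → Fin (N + 1)) → k) →ₗ[k] ((Fin N → κ) → k), ∀ z : κ → k,
      pw N z ∈ LinearMap.range Φ := by
  let cnt : (Fin N → κ) → (κ → Fin (N + 1)) := fun f a =>
    ⟨(Finset.univ.filter (fun s => f s = a)).card, by
      have := Finset.card_le_univ (Finset.univ.filter (fun s => f s = a))
      rw [Fintype.card_fin] at this
      omega⟩
  refine ⟨LinearMap.funLeft k k cnt, fun z => ?_⟩
  refine ⟨fun m => ∏ a, z a ^ (m a : ℕ), ?_⟩
  funext f
  rw [LinearMap.funLeft_apply]
  show ∏ a, z a ^ ((Finset.univ.filter (fun s => f s = a)).card) = ∏ s, z (f s)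
  rw [← Finset.prod_fiberwise_of_maps_to' (s := Finset.univ) (t := Finset.univ) (g := f)
    (fun _ _ => Finset.mem_univ _) z]
  refine Finset.prod_congr rfl fun a _ => ?_
  rw [Finset.prod_const]

/-- **Bini's argument.** If the scalars `τ₀` are the values at `X = 0` of power series which are
sums of `D` products over `Om k`, then the `N`-th Kronecker power of `τ₀` is a sum of at most
`(N+1)^|L × I × J| · D^N` products over `k`. -/
theorem kron_bound [Infinite k] {I J L : Type} [Fintype I] [Fintype J] [Fintype L] {D : ℕ}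
    (τ₀ : L → I → J → k) (τ : L → I → J → PowerSeries k) (c : L → Fin D → Om k)
    (p : I → Fin D → Om k) (q : J → Fin D → Om k)
    (h1 : ∀ l i j, algebraMap (PowerSeries k) (Om k) (τ l i j) = ∑ t, c l t * p i t * q j t)
    (h2 : ∀ l i j, constantCoeff (τ l i j) = τ₀ l i j) (N : ℕ) :
    ∃ (T : Type u) (_ : Fintype T) (a : T → (Fin N → L) → k) (b : T → (Fin N → I) → k)
      (d : T → (Fin N → J) → k),
      Fintype.card T ≤ (N + 1) ^ Fintype.card (L × I × J) * D ^ N ∧
      ∀ l i j, ∏ s, τ₀ (l s) (i s) (j s) = ∑ t, a t l * b t i * d t j := by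
  classical
  let κ := L × I × J
  let S : Set (κ → k) := {z | ∃ (c : L → Fin D → k) (p : I → Fin D → k) (q : J → Fin D → k),
    ∀ l i j, z (l, i, j) = ∑ t, c l t * p i t * q j t}
  let z₀ : κ → k := fun x => τ₀ x.1 x.2.1 x.2.2
  have hmem : pw N z₀ ∈ Submodule.span k (pw N '' S) := by
    by_contra hnot
    obtain ⟨f, hf, hf0⟩ := Submodule.exists_dual_map_eq_bot_of_notMem hnot inferInstance
    have hfS : ∀ z ∈ S, f (pw N z) = 0 := by
      intro z hz
      have : f (pw N z) ∈ Submodule.map f (Submodule.span k (pw N '' S)) :=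
        Submodule.mem_map_of_mem (Submodule.subset_span ⟨z, hz, rfl⟩)
      rw [hf0] at this
      exact (Submodule.mem_bot k).mp this
    have hfsum : ∀ g : (Fin N → κ) → k, f g = ∑ x, f (Pi.single x 1) * g x := by
      intro g
      conv_lhs => rw [pi_eq_sum_univ' g]
      rw [map_sum]
      refine Finset.sum_congr rfl fun x _ => ?_
      rw [map_smul, smul_eq_mul, mul_comm]
    -- the polynomial
    let V := (L × Fin D) ⊕ (I × Fin D) ⊕ (J × Fin D)
    let G : κ → MvPolynomial V k := fun x => ∑ t, MvPolynomial.X (Sum.inl (x.1, t)) *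
      MvPolynomial.X (Sum.inr (Sum.inl (x.2.1, t))) * MvPolynomial.X (Sum.inr (Sum.inr (x.2.2, t)))
    let F : MvPolynomial V k := ∑ x : Fin N → κ, MvPolynomial.C (f (Pi.single x 1)) *
      ∏ s, G (x s)
    have hF : F = 0 := by
      apply MvPolynomial.funext
      intro y
      rw [map_zero]
      have hz := hfS (fun x => MvPolynomial.eval y (G x)) (by
        refine ⟨fun l t => y (Sum.inl (l, t)), fun i t => y (Sum.inr (Sum.inl (i, t))),
          fun j t => y (Sum.inr (Sum.inr (j, t))), fun l i j => ?_⟩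
        simp [G])
      rw [hfsum] at hz
      simp only [F, map_sum, map_mul, MvPolynomial.eval_C, map_prod]
      exact hz
    let ψ : k →+* Om k := (algebraMap (PowerSeries k) (Om k)).comp (C (R := k))
    let y : V → Om k := Sum.elim (fun x => c x.1 x.2) (Sum.elim (fun x => p x.1 x.2)
      (fun x => q x.1 x.2))
    have hG : ∀ x : κ, MvPolynomial.eval₂Hom ψ y (G x) =
        algebraMap (PowerSeries k) (Om k) (τ x.1 x.2.1 x.2.2) := by
      intro x
      rw [h1]
      simp [G, y]
    have h3 : MvPolynomial.eval₂Hom ψ y F = algebraMap (PowerSeries k) (Om k)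
        (∑ x : Fin N → κ, C (f (Pi.single x 1)) * ∏ s, τ (x s).1 (x s).2.1 (x s).2.2) := by
      simp only [F, map_sum, map_mul, map_prod, hG]
      refine Finset.sum_congr rfl fun x _ => ?_
      simp [ψ]
    rw [hF, map_zero] at h3
    have h4 := algebraMap_om_injective (k := k) ((map_zero _).trans h3)
    have h5 := congrArg (constantCoeff (R := k)) h4
    rw [map_zero, map_sum] at h5
    apply hf
    rw [hfsum, h5]
    refine Finset.sum_congr rfl fun x _ => ?_
    rw [map_mul, map_prod, constantCoeff_C]
    simp only [h2]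
    rfl
  obtain ⟨Φ, hΦ⟩ := exists_range (k := k) (κ := κ) N
  obtain ⟨b, hbS, hbspan, hbli⟩ := exists_linearIndependent k (pw N '' S)
  have hble : Submodule.span k (pw N '' S) ≤ LinearMap.range Φ := by
    rw [Submodule.span_le]
    rintro _ ⟨z, _, rfl⟩
    exact hΦ z
  have hbfin : b.Finite := hbli.set_finite_of_isNoetherian
  let _ : Fintype b := hbfin.fintype
  have hbcard : Fintype.card b ≤ (N + 1) ^ Fintype.card κ := by
    have e1 : Fintype.card b = finrank k (Submodule.span k b) := by
      rw [finrank_span_set_eq_card hbli, Set.toFinset_card]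
    rw [e1, hbspan]
    refine (Submodule.finrank_mono hble).trans ?_
    refine (LinearMap.finrank_range_le Φ).trans ?_
    rw [Module.finrank_fintype_fun_eq_card, Fintype.card_fun, Fintype.card_fin]
  rw [← hbspan] at hmem
  have hb' : b = Set.range (Subtype.val : b → ((Fin N → κ) → k)) := Subtype.range_coe.symm
  rw [hb', Submodule.mem_span_range_iff_exists_fun] at hmem
  obtain ⟨γ, hγ⟩ := hmem
  have hz : ∀ y : b, ∃ z ∈ S, pw N z = y := fun y => hbS y.2
  choose z hzS hz using hz
  choose c' p' q' hcpq using hzS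
  refine ⟨b × (Fin N → Fin D), inferInstance, fun t l => γ t.1 * ∏ s, c' t.1 (l s) (t.2 s),
    fun t i => ∏ s, p' t.1 (i s) (t.2 s), fun t j => ∏ s, q' t.1 (j s) (t.2 s), ?_, ?_⟩
  · rw [Fintype.card_prod, Fintype.card_fun, Fintype.card_fin, Fintype.card_fin]
    exact Nat.mul_le_mul_right _ hbcard
  · intro l i j
    have h3 := congrFun hγ (fun s => (l s, i s, j s))
    rw [Finset.sum_apply] at h3
    have h4 : pw N z₀ (fun s => (l s, i s, j s)) = ∏ s, τ₀ (l s) (i s) (j s) := rfl
    rw [← h4, ← h3, Fintype.sum_prod_type]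
    refine Finset.sum_congr rfl fun y _ => ?_
    rw [Pi.smul_apply, smul_eq_mul, ← hz]
    show γ y * ∏ s, z y (l s, i s, j s) = _
    simp only [hcpq]
    rw [Finset.prod_univ_sum, Finset.mul_sum, Fintype.piFinset_univ]
    refine Finset.sum_congr rfl fun g _ => ?_
    rw [Finset.prod_mul_distrib, Finset.prod_mul_distrib]
    ring

end Pool.Agent.H15.Defect
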