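import Pool.Agent.H15.Defect.Kron

/-!
# Lower bound for the powers of `k ⊕ M_m ⊕ M_m`
-/

open TensorProduct Module Matrix

namespace Pool.Agent.H15.Defect

open Pool.Agent.H12.Defect

universe u

variable {k : Type u} [Field k]

/-- structure constants of matrix multiplication -/
def mmT (k : Type u) [Field k] {κ : Type} [DecidableEq κ] (l i j : κ × κ) : k :=
  if i.2 = j.1 ∧ i.1 = l.1 ∧ j.2 = l.2 then 1 else 0

theorem prod_mmT {κ : Type} [DecidableEq κ] {N : ℕ} (F₀ H₀ F G G' H : Fin N → κ) :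
    ∏ s, mmT k (F₀ s, H₀ s) (F s, G s) (G' s, H s) =
      if G = G' ∧ F = F₀ ∧ H = H₀ then (1 : k) else 0 := by
  split_ifs with h
  · obtain ⟨rfl, rfl, rfl⟩ := h
    exact Finset.prod_eq_one fun s _ => by simp [mmT]
  · have : ∃ s, ¬ (G s = G' s ∧ F s = F₀ s ∧ H s = H₀ s) := by
      by_contra hcon
      push Not at hcon
      exact h ⟨funext fun s => (hcon s).1, funext fun s => (hcon s).2.1,
        funext fun s => (hcon s).2.2⟩
    obtain ⟨s, hs⟩ := this
    apply Finset.prod_eq_zero (Finset.mem_univ s)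
    simp only [mmT, if_neg hs]

theorem sum_comm4 {α T : Type*} [Fintype α] [Fintype T] (f : T → α → α → α → α → k) :
    ∑ t, ∑ F, ∑ G, ∑ G', ∑ H, f t F G G' H = ∑ F, ∑ G, ∑ G', ∑ H, ∑ t, f t F G G' H := by
  rw [Finset.sum_comm]
  refine Finset.sum_congr rfl fun F _ => ?_
  rw [Finset.sum_comm]
  refine Finset.sum_congr rfl fun G _ => ?_
  rw [Finset.sum_comm]
  refine Finset.sum_congr rfl fun G' _ => ?_
  rw [Finset.sum_comm]

/-- A decomposition of the Kronecker power of the matrix multiplication tensor. -/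
theorem mm_of_decomp {κ : Type} [Fintype κ] [DecidableEq κ] {N : ℕ} {T : Type u} [Fintype T]
    (a b d : T → (Fin N → κ × κ) → k)
    (h : ∀ l i j : Fin N → κ × κ, ∏ s, mmT k (l s) (i s) (j s) = ∑ t, a t l * b t i * d t j) :
    MM k (Fin N → κ) (Fintype.card T) := by
  let form (c : (Fin N → κ × κ) → k) : Matrix (Fin N → κ) (Fin N → κ) k →ₗ[k] k :=
    ∑ F, ∑ G, c (fun s => (F s, G s)) • Matrix.entryLinearMap k k F G
  have hform : ∀ c X, form c X = ∑ F, ∑ G, c (fun s => (F s, G s)) * X F G := by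
    intro c X
    simp only [form, LinearMap.sum_apply, LinearMap.smul_apply, Matrix.entryLinearMap_apply,
      smul_eq_mul]
  refine MM.of_fintype (fun t => form (b t)) (fun t => form (d t))
    (fun t => Matrix.of fun F H => a t (fun s => (F s, H s))) fun X Y => ?_
  ext F₀ H₀
  rw [Matrix.mul_apply, Matrix.sum_apply]
  have h1 : ∀ t, ((form (b t) X * form (d t) Y) • Matrix.of fun F H => a t (fun s => (F s, H s)) :
      Matrix (Fin N → κ) (Fin N → κ) k) F₀ H₀ =
      ∑ F, ∑ G, ∑ G', ∑ H, (X F G * Y G' H) * (a t (fun s => (F₀ s, H₀ s)) *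
        b t (fun s => (F s, G s)) * d t (fun s => (G' s, H s))) := by
    intro t
    rw [Matrix.smul_apply, smul_eq_mul, hform, hform, Finset.sum_mul, Finset.sum_mul]
    refine Finset.sum_congr rfl fun F _ => ?_
    rw [Finset.sum_mul, Finset.sum_mul]
    refine Finset.sum_congr rfl fun G _ => ?_
    rw [Finset.mul_sum, Finset.sum_mul]
    refine Finset.sum_congr rfl fun G' _ => ?_
    rw [Finset.mul_sum, Finset.sum_mul]
    refine Finset.sum_congr rfl fun H _ => ?_
    rw [Matrix.of_apply]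
    ring
  rw [Finset.sum_congr rfl fun t _ => h1 t, sum_comm4]
  have h2 : ∀ F G G' H, ∑ t, (X F G * Y G' H) * (a t (fun s => (F₀ s, H₀ s)) *
        b t (fun s => (F s, G s)) * d t (fun s => (G' s, H s))) =
      (X F G * Y G' H) * if G = G' ∧ F = F₀ ∧ H = H₀ then (1 : k) else 0 := by
    intro F G G' H
    rw [← Finset.mul_sum, ← h (fun s => (F₀ s, H₀ s)) (fun s => (F s, G s))
      (fun s => (G' s, H s)), prod_mmT]
  have h3 : ∀ F G, ∑ G', ∑ H, ∑ t, (X F G * Y G' H) * (a t (fun s => (F₀ s, H₀ s)) *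
        b t (fun s => (F s, G s)) * d t (fun s => (G' s, H s))) =
      if F = F₀ then X F G * Y G H₀ else 0 := by
    intro F G
    rw [Finset.sum_eq_single_of_mem G (Finset.mem_univ _),
      Finset.sum_eq_single_of_mem H₀ (Finset.mem_univ _)]
    · rw [h2]
      by_cases hF : F = F₀
      · rw [if_pos ⟨rfl, hF, rfl⟩, if_pos hF, mul_one]
      · rw [if_neg (fun h' => hF h'.2.1), if_neg hF, mul_zero]
    · intro H _ hH
      rw [h2, if_neg (fun h' => hH h'.2.2), mul_zero]
    · intro G' _ hG'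
      refine Finset.sum_eq_zero fun H _ => ?_
      rw [h2, if_neg (fun h' => hG' h'.1.symm), mul_zero]
  rw [Finset.sum_congr rfl fun F _ => Finset.sum_congr rfl fun G _ => h3 F G]
  symm
  rw [Finset.sum_eq_single_of_mem F₀ (Finset.mem_univ _)]
  · refine Finset.sum_congr rfl fun G _ => ?_
    rw [if_pos rfl]
  · intro F _ hF
    refine Finset.sum_eq_zero fun G _ => ?_
    rw [if_neg hF]
section emb

variable {m q : ℕ}

/-- the three blocks -/
def blk (h : 3 * q ≤ m) (c : Fin 3) (i : Fin q) : Fin m :=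
  ⟨c * q + i, by
    have := i.2
    have hc : (c : ℕ) ≤ 2 := by omega
    nlinarith⟩

theorem blk_inj (h : 3 * q ≤ m) {c c' : Fin 3} {i i' : Fin q} (he : blk h c i = blk h c' i') :
    c = c' ∧ i = i' := by
  have h1 : (c : ℕ) * q + i = c' * q + i' := congrArg Fin.val he
  have h2 := i.2
  have h3 := i'.2
  have hq : 0 < q := by omega
  have h4 : (c : ℕ) = c' := by
    have e1 : ((c : ℕ) * q + i) / q = c := by
      rw [mul_comm, Nat.mul_add_div hq, Nat.div_eq_of_lt h2, add_zero]
    have e2 : ((c' : ℕ) * q + i') / q = c' := by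
      rw [mul_comm, Nat.mul_add_div hq, Nat.div_eq_of_lt h3, add_zero]
    rw [← e1, h1, e2]
  refine ⟨Fin.ext h4, Fin.ext ?_⟩
  rw [h4] at h1
  omega

/-- degree one elements -/
noncomputable def elt (k : Type u) [Field k] (h : 3 * q ≤ m) (c c' : Fin 3) (i j : Fin q) :
    MatAlg k m :=
  ((0 : k), Matrix.single (blk h c i) (blk h c' j) (1 : k), (0 : Matrix (Fin m) (Fin m) k))

/-- degree two coordinates -/
noncomputable def coord (k : Type u) [Field k] (m : ℕ) (i j : Fin m) : MatAlg k m →ₗ[k] k :=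
  (Matrix.entryLinearMap k k i j) ∘ₗ (LinearMap.snd k _ _) ∘ₗ (LinearMap.snd k _ _) ∘ₗ
    (QA.linEquiv (jordan k m)).toLinearMap

theorem coord_elt (h : 3 * q ≤ m) (l i j : Fin q × Fin q) :
    coord k m (blk h 0 l.1) (blk h 2 l.2) (elt k h 0 1 i.1 i.2 * elt k h 1 2 j.1 j.2) =
      mmT k l i j := by
  have h1 : coord k m (blk h 0 l.1) (blk h 2 l.2) (elt k h 0 1 i.1 i.2 * elt k h 1 2 j.1 j.2) =
      (Matrix.single (blk h 0 i.1) (blk h 1 i.2) (1 : k) *
        Matrix.single (blk h 1 j.1) (blk h 2 j.2) (1 : k) +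
      Matrix.single (blk h 1 j.1) (blk h 2 j.2) (1 : k) *
        Matrix.single (blk h 0 i.1) (blk h 1 i.2) (1 : k)) (blk h 0 l.1) (blk h 2 l.2) := by
    show ((0 : k) • (0 : Matrix (Fin m) (Fin m) k) + (0 : k) • (0 : Matrix (Fin m) (Fin m) k) +
      (Matrix.single (blk h 0 i.1) (blk h 1 i.2) (1 : k) *
        Matrix.single (blk h 1 j.1) (blk h 2 j.2) (1 : k) +
      Matrix.single (blk h 1 j.1) (blk h 2 j.2) (1 : k) *
        Matrix.single (blk h 0 i.1) (blk h 1 i.2) (1 : k))) (blk h 0 l.1) (blk h 2 l.2) = _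
    rw [smul_zero, add_zero, zero_add]
  rw [h1, Matrix.single_mul_single_of_ne (i := blk h 1 j.1) (j := blk h 2 j.2)
    (h := fun he => by simpa using (blk_inj h he).1), add_zero]
  by_cases hij : i.2 = j.1
  · rw [hij, Matrix.single_mul_single_same, Matrix.single_apply, mmT, mul_one]
    by_cases h2 : i.1 = l.1
    · by_cases h3 : j.2 = l.2
      · rw [if_pos ⟨by rw [h2], by rw [h3]⟩, if_pos ⟨hij, h2, h3⟩]
      · rw [if_neg (fun h' => h3 (blk_inj h h'.2).2), if_neg (fun h' => h3 h'.2.2)]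
    · rw [if_neg (fun h' => h2 (blk_inj h h'.1).2), if_neg (fun h' => h2 h'.2.1)]
  · rw [Matrix.single_mul_single_of_ne _ _ _ (h := fun he => hij (blk_inj h he).2), mmT,
      if_neg (fun h' => hij h'.1)]
    rfl

end emb

end Pool.Agent.H15.Defect
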