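import Pool.Agent.H15.Defect.Lower

/-!
# Lower bound for the powers of `k ⊕ M_m ⊕ M_m`, conclusion
-/

open TensorProduct Module Matrix

namespace Pool.Agent.H15.Defect

open Pool.Agent.H12.Defect

universe u

variable {k : Type u} [Field k]

/-- product functional on a power -/
noncomputable def prodFun {A : Type u} [CommRing A] [Algebra k A] {n : ℕ}
    (f : Fin n → A →ₗ[k] k) : (⨂[k] _ : Fin n, A) →ₗ[k] k :=
  PiTensorProduct.lift ((MultilinearMap.mkPiAlgebra k (Fin n) k).compLinearMap f)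

theorem prodFun_tprod {A : Type u} [CommRing A] [Algebra k A] {n : ℕ}
    (f : Fin n → A →ₗ[k] k) (x : Fin n → A) :
    prodFun f (PiTensorProduct.tprod k x) = ∏ s, f s (x s) := by
  simp [prodFun]

theorem mm_of_dle [Infinite k] {m q n D : ℕ} (h3 : 3 * q ≤ m)
    (hD : Dle k (⨂[k] _ : Fin n, MatAlg k m) D) (N : ℕ) :
    MM k (Fin N → Fin n → Fin q) ((N + 1) ^ ((q ^ n) ^ 6) * D ^ N) := by
  obtain ⟨B, i1, i2, hB, ⟨g, hg⟩, hfin⟩ := hD
  let κ := Fin n → Fin q
  obtain ⟨τ, c, p, r, h1, h2⟩ := exists_points hB g hg (I := κ × κ) (J := κ × κ) (L := κ × κ)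
    (fun i => PiTensorProduct.tprod k fun s => elt k h3 0 1 (i.1 s) (i.2 s))
    (fun j => PiTensorProduct.tprod k fun s => elt k h3 1 2 (j.1 s) (j.2 s))
    (fun l => prodFun fun s => coord k m (blk h3 0 (l.1 s)) (blk h3 2 (l.2 s)))
  have hτ : ∀ l i j : κ × κ, PowerSeries.constantCoeff (τ l i j) = mmT k l i j := by
    intro l i j
    rw [h2, PiTensorProduct.tprod_mul_tprod, prodFun_tprod]
    have h4 : ∀ s, coord k m (blk h3 0 (l.1 s)) (blk h3 2 (l.2 s))
        (((fun s => elt k h3 0 1 (i.1 s) (i.2 s)) * (fun s => elt k h3 1 2 (j.1 s) (j.2 s))) s) =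
        mmT k (l.1 s, l.2 s) (i.1 s, i.2 s) (j.1 s, j.2 s) := fun s =>
      coord_elt h3 (l.1 s, l.2 s) (i.1 s, i.2 s) (j.1 s, j.2 s)
    simp only [h4]
    rw [prod_mmT]
    rfl
  obtain ⟨T, _, a, b, d, hT, hdec⟩ := kron_bound (mmT k (κ := κ)) τ c p r h1 hτ N
  refine (mm_of_decomp a b d hdec).mono (hT.trans ?_)
  have hcard : Fintype.card ((κ × κ) × (κ × κ) × (κ × κ)) = (q ^ n) ^ 6 := by
    simp only [κ, Fintype.card_prod, Fintype.card_fun, Fintype.card_fin]
    ring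
  rw [hcard]
  exact Nat.mul_le_mul_left _ (Nat.pow_le_pow_left hfin N)

/-- comparison of exponential growth rates -/
theorem le_of_pow_le {x y : ℝ} (hy : 0 ≤ y) {K : ℕ}
    (h : ∀ N : ℕ, x ^ N ≤ (N + 1 : ℝ) ^ K * y ^ N) : x ≤ y := by
  by_contra hlt
  rw [not_le] at hlt
  set z : ℝ := (x + y) / 2 with hz
  have hzpos : 0 < z := by rw [hz]; linarith
  have hyz : y ≤ z := by rw [hz]; linarith
  have hzx : z < x := by rw [hz]; linarith
  have hr : 1 < x / z := by rwa [one_lt_div hzpos]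
  have h1 := tendsto_pow_const_div_const_pow_of_one_lt K hr
  have h2 := (Filter.tendsto_add_atTop_iff_nat 1).mpr h1
  obtain ⟨N, hN⟩ := (h2.eventually_lt_const (show (0 : ℝ) < z / x by
    apply div_pos hzpos; linarith)).exists
  have h3 : (N + 1 : ℝ) ^ K / (x / z) ^ (N + 1) < z / x := by exact_mod_cast hN
  have hxpos : 0 < x := by linarith
  rw [div_lt_iff₀ (by positivity), pow_succ] at h3
  have h4 : z / x * ((x / z) ^ N * (x / z)) = (x / z) ^ N := by
    field_simp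
  rw [h4, div_pow, lt_div_iff₀ (by positivity)] at h3
  have h5 := h N
  have h6 : (N + 1 : ℝ) ^ K * y ^ N ≤ (N + 1 : ℝ) ^ K * z ^ N :=
    mul_le_mul_of_nonneg_left (pow_le_pow_left₀ hy hyz N) (by positivity)
  linarith

/-- **Lower bound.** Every smoothable scheme containing the `n`-th power of the scheme of
`k ⊕ M_m ⊕ M_m` has degree at least `⌊m/3⌋^(ωn)`. -/
theorem rpow_le_of_dle [Infinite k] {m q n D : ℕ} (hq : 1 ≤ q) (h3 : 3 * q ≤ m)
    (hD : Dle k (⨂[k] _ : Fin n, MatAlg k m) D) : ((q : ℝ) ^ omega k) ^ n ≤ D := by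
  apply le_of_pow_le (Nat.cast_nonneg D) (K := (q ^ n) ^ 6)
  intro N
  have h1 := mm_of_dle h3 hD N
  have hcard : Fintype.card (Fin N → Fin n → Fin q) = (q ^ n) ^ N := by
    simp only [Fintype.card_fun, Fintype.card_fin]
  have h2 : MM k (Fin ((q ^ n) ^ N)) ((N + 1) ^ ((q ^ n) ^ 6) * D ^ N) :=
    h1.of_equiv (Fintype.equivFinOfCardEq hcard).symm
  have h4 := h2.rpow_omega_le (Nat.one_le_pow _ _ (Nat.one_le_pow _ _ hq))
  push_cast at h4
  refine le_trans (le_of_eq ?_) h4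
  have hq0 : (0 : ℝ) ≤ q := Nat.cast_nonneg q
  rw [← pow_mul, ← pow_mul, ← Real.rpow_natCast, ← Real.rpow_natCast, ← Real.rpow_mul hq0,
    ← Real.rpow_mul hq0, mul_comm]

end Pool.Agent.H15.Defect
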