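import Pool.Agent.H15.Defect.Jordan

/-!
# Structure constants of a subscheme of a smoothable scheme
-/

open TensorProduct Module PowerSeries

namespace Pool.Agent.H15.Defect

open Pool.Agent.H12.Defect

universe u

variable {k : Type u} [Field k]

/-- Lifting a functional along a smoothing. -/
theorem IsModel.exists_functional {𝒜 : Type u} [CommRing 𝒜] [Algebra (PowerSeries k) 𝒜] {B : Type u}
    [CommRing B] [Algebra k B] {π : 𝒜 →+* B} (h : IsModel k π) (f : B →ₗ[k] k) :
    ∃ F : 𝒜 →ₗ[PowerSeries k] PowerSeries k, ∀ a, constantCoeff (F a) = f (π a) := by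
  have := h.free
  have := h.finite
  let b := Module.Free.chooseBasis (PowerSeries k) 𝒜
  refine ⟨b.constr (PowerSeries k) (fun l => PowerSeries.C (f (π (b l)))), fun a => ?_⟩
  have h1 : π a = ∑ l, constantCoeff (b.repr a l) • π (b l) := by
    conv_lhs => rw [← b.sum_repr a]
    rw [map_sum]
    exact Finset.sum_congr rfl (fun l _ => h.smul _ _)
  rw [h1, map_sum]
  simp only [Basis.constr_apply_fintype, map_sum, smul_eq_mul, map_mul, map_smul,
    PowerSeries.constantCoeff_C, Basis.equivFun_apply]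

/-- A subscheme of a smoothable scheme of degree `D`: the products `λ_l(u_i v_j)` deform to sums of
`D` products over the algebraically closed field `Om k`. -/
theorem exists_points {B A : Type u} [CommRing B] [Algebra k B] [CommRing A] [Algebra k A]
    (hB : IsSmoothable k B) (g : B →ₐ[k] A) (hg : Function.Surjective g) {I J L : Type}
    (u : I → A) (v : J → A) (lam : L → A →ₗ[k] k) :
    ∃ (τ : L → I → J → PowerSeries k) (c : L → Fin (finrank k B) → Om k)
      (p : I → Fin (finrank k B) → Om k) (q : J → Fin (finrank k B) → Om k),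
      (∀ l i j, algebraMap (PowerSeries k) (Om k) (τ l i j) = ∑ t, c l t * p i t * q j t) ∧
      ∀ l i j, constantCoeff (τ l i j) = lam l (u i * v j) := by
  classical
  obtain ⟨𝒜, i1, i2, π, h⟩ := isSmoothable_iff.mp hB
  have := h.free
  have := h.finite
  have := h.reduced
  obtain ⟨T, _, ⟨e⟩⟩ := exists_algEquiv_pi (Om k) (Om k ⊗[PowerSeries k] 𝒜)
  have hcard : Fintype.card T = finrank k B := by
    have h1 : finrank (Om k) (Om k ⊗[PowerSeries k] 𝒜) = finrank (PowerSeries k) 𝒜 :=
      Module.finrank_baseChange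
    rw [h.finrank_eq, ← h1, e.toLinearEquiv.finrank_eq]
    simp
  let eT : T ≃ Fin (finrank k B) := Fintype.equivFinOfCardEq hcard
  have hu : ∀ i, ∃ a : 𝒜, g (π a) = u i := fun i => (hg.comp h.surj) (u i)
  have hv : ∀ j, ∃ a : 𝒜, g (π a) = v j := fun j => (hg.comp h.surj) (v j)
  choose u' hu' using hu
  choose v' hv' using hv
  have hF : ∀ l, ∃ F : 𝒜 →ₗ[PowerSeries k] PowerSeries k,
      ∀ a, constantCoeff (F a) = lam l (g (π a)) := fun l =>
    h.exists_functional ((lam l) ∘ₗ g.toLinearMap)
  choose F hF using hF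
  refine ⟨fun l i j => F l (u' i * v' j),
    fun l t => ext (Om k) (F l) (e.symm (Pi.single (eT.symm t) 1)),
    fun i t => e (1 ⊗ₜ u' i) (eT.symm t), fun j t => e (1 ⊗ₜ v' j) (eT.symm t), ?_, ?_⟩
  · intro l i j
    have h1 : algebraMap (PowerSeries k) (Om k) (F l (u' i * v' j)) =
        ext (Om k) (F l) ((1 : Om k) ⊗ₜ (u' i * v' j)) := by
      rw [ext_tmul, Algebra.algebraMap_eq_smul_one]
    have h2 : ((1 : Om k) ⊗ₜ[PowerSeries k] (u' i * v' j)) =
        ∑ t : T, (e (1 ⊗ₜ u' i) t * e (1 ⊗ₜ v' j) t) • e.symm (Pi.single t 1) := by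
      apply e.injective
      have h3 : ((1 : Om k) ⊗ₜ[PowerSeries k] (u' i * v' j)) = (1 ⊗ₜ u' i) * (1 ⊗ₜ v' j) := by
        rw [Algebra.TensorProduct.tmul_mul_tmul, one_mul]
      rw [h3, map_mul, map_sum]
      ext t
      simp only [map_smul, AlgEquiv.apply_symm_apply, Finset.sum_apply, Pi.smul_apply,
        Pi.single_apply, smul_eq_mul, mul_ite, mul_one, mul_zero, Finset.sum_ite_eq,
        Finset.mem_univ, if_true, Pi.mul_apply]
    rw [h1, h2, map_sum]
    rw [← eT.symm.sum_comp]
    refine Finset.sum_congr rfl fun t _ => ?_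
    rw [map_smul, smul_eq_mul]
    ring
  · intro l i j
    rw [hF, map_mul, map_mul, hu', hv']

end Pool.Agent.H15.Defect
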