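import Pool.Agent.H15.Defect.Dle

/-!
# Powers
-/

open TensorProduct Module PowerSeries

namespace Pool.Agent.H15.Defect

open Pool.Agent.H12.Defect

universe u

section pow

variable {k : Type u} [Field k] {A : Type u} [CommRing A] [Algebra k A] {N : ℕ}

variable (k A) in
/-- `⨂^n A → ⨂^(n+1) A`, `x ↦ 1 ⊗ x`. -/
noncomputable def succHom (n : ℕ) : (⨂[k] _ : Fin n, A) →ₐ[k] (⨂[k] _ : Fin (n + 1), A) :=
  PiTensorProduct.liftAlgHom
    ((PiTensorProduct.tprod k (s := fun _ : Fin (n + 1) => A)).curryLeft 1)
    (by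
      rw [MultilinearMap.curryLeft_apply, PiTensorProduct.one_def]
      congr 1
      funext i
      refine Fin.cases ?_ (fun j => ?_) i <;> rfl)
    (by
      intro x y
      rw [MultilinearMap.curryLeft_apply, MultilinearMap.curryLeft_apply,
        MultilinearMap.curryLeft_apply, PiTensorProduct.tprod_mul_tprod]
      congr 1
      funext i
      refine Fin.cases ?_ (fun j => ?_) i
      · simp
      · simp)

theorem succHom_tprod (n : ℕ) (x : Fin n → A) :
    succHom k A n (PiTensorProduct.tprod k x) =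
      PiTensorProduct.tprod k (Fin.cons (α := fun _ => A) 1 x) := by
  simp [succHom]

variable (k A) in
/-- `A ⊗ ⨂^n A → ⨂^(n+1) A` -/
noncomputable def consHom (n : ℕ) : (A ⊗[k] (⨂[k] _ : Fin n, A)) →ₐ[k] (⨂[k] _ : Fin (n + 1), A) :=
  Algebra.TensorProduct.productMap
    (PiTensorProduct.singleAlgHom (R := k) (A := fun _ : Fin (n + 1) => A) 0) (succHom k A n)

theorem consHom_tmul (n : ℕ) (a : A) (x : Fin n → A) :
    consHom k A n (a ⊗ₜ PiTensorProduct.tprod k x) =
      PiTensorProduct.tprod k (Fin.cons (α := fun _ => A) a x) := by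
  rw [consHom, Algebra.TensorProduct.productMap_apply_tmul, succHom_tprod,
    PiTensorProduct.singleAlgHom_apply, PiTensorProduct.tprod_mul_tprod]
  congr 1
  funext i
  refine Fin.cases ?_ (fun j => ?_) i
  · simp
  · simp

theorem consHom_surjective (n : ℕ) : Function.Surjective (consHom k A n) := by
  intro z
  induction z using PiTensorProduct.induction_on with
  | smul_tprod r f =>
    refine ⟨r • (f 0 ⊗ₜ PiTensorProduct.tprod k (Fin.tail f)), ?_⟩
    rw [map_smul, consHom_tmul, Fin.cons_self_tail]
  | add x y hx hy =>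
    obtain ⟨x', rfl⟩ := hx
    obtain ⟨y', rfl⟩ := hy
    exact ⟨x' + y', map_add _ _ _⟩

theorem Dle.pow (h : Dle k A N) : ∀ n : ℕ, Dle k (⨂[k] _ : Fin n, A) (N ^ n)
  | 0 => by
    rw [pow_zero]
    refine (dle_self k).of_surjective (Algebra.ofId k _) ?_
    intro z
    induction z using PiTensorProduct.induction_on with
    | smul_tprod r f =>
      refine ⟨r, ?_⟩
      rw [Algebra.ofId_apply, Algebra.algebraMap_eq_smul_one, PiTensorProduct.one_def]
      congr 2
      exact Subsingleton.elim _ _
    | add x y hx hy =>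
      obtain ⟨x', hx'⟩ := hx
      obtain ⟨y', hy'⟩ := hy
      exact ⟨x' + y', by rw [map_add, hx', hy']⟩
  | n + 1 => by
    rw [pow_succ']
    exact (h.tensor (Dle.pow h n)).of_surjective (consHom k A n) (consHom_surjective n)

end pow

end Pool.Agent.H15.Defect
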